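import Mathlib

set_option autoImplicit false

namespace Pool.Sel63c848

open Finset

/-- the `t` largest elements of `A` with respect to the scores `f` -/
def top (A : Finset ℕ) (t : ℕ) (f : ℕ → ℕ) : Finset ℕ :=
  A.filter (fun x => (A.filter (fun y => f x < f y)).card < t)

/-- `k` adaptive comparisons between elements of `A` lead from the knowledge `P` to
knowledge satisfying `Q`. -/
def Can (A : Finset ℕ) (Q : Set (ℕ → ℕ) → Prop) : ℕ → Set (ℕ → ℕ) → Prop
  | 0, P => Q P
  | k + 1, P => ∃ x ∈ A, ∃ y ∈ A,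
      Can A Q k {f | f ∈ P ∧ f x < f y} ∧ Can A Q k {f | f ∈ P ∧ ¬ f x < f y}

/-- the top `t` set is constant on `P` -/
def Const (A : Finset ℕ) (t : ℕ) (P : Set (ℕ → ℕ)) : Prop :=
  ∀ f ∈ P, ∀ g ∈ P, top A t f = top A t g

/-- all score functions which are injective on `A` -/
def Inj (A : Finset ℕ) : Set (ℕ → ℕ) := {f | Set.InjOn f (A : Set ℕ)}

/-- `k` comparisons suffice to find the top `t` set of `A` -/
def V (A : Finset ℕ) (t k : ℕ) : Prop := Can A (Const A t) k (Inj A)

theorem can_mono_set {A : Finset ℕ} {Q : Set (ℕ → ℕ) → Prop}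
    (hQ : ∀ P P', P' ⊆ P → Q P → Q P') :
    ∀ (k : ℕ) (P P' : Set (ℕ → ℕ)), P' ⊆ P → Can A Q k P → Can A Q k P' := by
  intro k
  induction k with
  | zero => intro P P' h h1; exact hQ P P' h h1
  | succ k ih =>
    rintro P P' h ⟨x, hx, y, hy, h1, h2⟩
    refine ⟨x, hx, y, hy, ih _ _ ?_ h1, ih _ _ ?_ h2⟩
    · rintro f ⟨hf, hf'⟩; exact ⟨h hf, hf'⟩
    · rintro f ⟨hf, hf'⟩; exact ⟨h hf, hf'⟩

theorem can_mono_Q {A : Finset ℕ} {Q R : Set (ℕ → ℕ) → Prop} (hQ : ∀ P, Q P → R P) :
    ∀ (k : ℕ) (P : Set (ℕ → ℕ)), Can A Q k P → Can A R k P := by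
  intro k
  induction k with
  | zero => intro P h; exact hQ P h
  | succ k ih =>
    rintro P ⟨x, hx, y, hy, h1, h2⟩
    exact ⟨x, hx, y, hy, ih _ h1, ih _ h2⟩

theorem can_succ {A : Finset ℕ} {Q : Set (ℕ → ℕ) → Prop} (hA : A.Nonempty)
    (hQ : ∀ P P', P' ⊆ P → Q P → Q P') {k : ℕ} {P : Set (ℕ → ℕ)} (h : Can A Q k P) :
    Can A Q (k + 1) P := by
  obtain ⟨a, ha⟩ := hA
  refine ⟨a, ha, a, ha, ?_, ?_⟩
  · exact can_mono_set hQ k P _ (fun f hf => hf.1) h
  · exact can_mono_set hQ k P _ (fun f hf => hf.1) h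

theorem can_le {A : Finset ℕ} {Q : Set (ℕ → ℕ) → Prop} (hA : A.Nonempty)
    (hQ : ∀ P P', P' ⊆ P → Q P → Q P') {k l : ℕ} (hkl : k ≤ l) {P : Set (ℕ → ℕ)}
    (h : Can A Q k P) : Can A Q l P := by
  induction hkl with
  | refl => exact h
  | step _ ih => exact can_succ hA hQ ih

theorem can_seq {A : Finset ℕ} {Q R : Set (ℕ → ℕ) → Prop} {b : ℕ}
    (hQR : ∀ P, Q P → Can A R b P) :
    ∀ (a : ℕ) (P : Set (ℕ → ℕ)), Can A Q a P → Can A R (a + b) P := by
  intro a
  induction a with
  | zero => intro P h; rw [Nat.zero_add]; exact hQR P h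
  | succ a ih =>
    rintro P ⟨x, hx, y, hy, h1, h2⟩
    rw [Nat.add_right_comm]
    exact ⟨x, hx, y, hy, ih _ h1, ih _ h2⟩

theorem const_anti (A : Finset ℕ) (t : ℕ) :
    ∀ P P', P' ⊆ P → Const A t P → Const A t P' :=
  fun _ _ h h1 f hf g hg => h1 f (h hf) g (h hg)

theorem V_succ {A : Finset ℕ} (hA : A.Nonempty) {t k : ℕ} (h : V A t k) : V A t (k + 1) :=
  can_succ hA (const_anti A t) h

theorem V_le {A : Finset ℕ} (hA : A.Nonempty) {t k l : ℕ} (hkl : k ≤ l) (h : V A t k) :
    V A t l := can_le hA (const_anti A t) hkl h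

/-! ### relabelling -/

theorem top_image {A : Finset ℕ} {t : ℕ} {e : ℕ → ℕ} (he : Set.InjOn e (A : Set ℕ))
    (f : ℕ → ℕ) : top (A.image e) t f = (top A t (f ∘ e)).image e := by
  classical
  have key : ∀ x ∈ A, ((A.image e).filter (fun y => f (e x) < f y)).card
      = (A.filter (fun y => (f ∘ e) x < (f ∘ e) y)).card := by
    intro x hx
    rw [← Finset.card_image_of_injOn (s := A.filter (fun y => (f ∘ e) x < (f ∘ e) y)) (f := e)]
    · congr 1
      ext z
      simp only [mem_filter, mem_image, Function.comp]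
      constructor
      · rintro ⟨⟨y, hy, rfl⟩, h⟩; exact ⟨y, ⟨hy, h⟩, rfl⟩
      · rintro ⟨y, ⟨hy, h⟩, rfl⟩; exact ⟨⟨y, hy, rfl⟩, h⟩
    · intro a ha b hb hab
      simp only [coe_filter, Set.mem_ofPred_eq] at ha hb
      exact he ha.1 hb.1 hab
  ext z
  simp only [top, mem_filter, mem_image]
  constructor
  · rintro ⟨⟨x, hx, rfl⟩, h⟩
    rw [key x hx] at h
    exact ⟨x, ⟨hx, h⟩, rfl⟩
  · rintro ⟨x, ⟨hx, h⟩, rfl⟩
    refine ⟨⟨x, hx, rfl⟩, ?_⟩
    rw [key x hx]; exact h

theorem can_image {A : Finset ℕ} {t : ℕ} {e : ℕ → ℕ} (he : Set.InjOn e (A : Set ℕ)) :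
    ∀ (k : ℕ) (P : Set (ℕ → ℕ)), Can A (Const A t) k P →
      Can (A.image e) (Const (A.image e) t) k {f | f ∘ e ∈ P} := by
  classical
  intro k
  induction k with
  | zero =>
    intro P h f hf g hg
    rw [top_image he, top_image he, h _ hf _ hg]
  | succ k ih =>
    rintro P ⟨x, hx, y, hy, h1, h2⟩
    refine ⟨e x, mem_image_of_mem e hx, e y, mem_image_of_mem e hy, ?_, ?_⟩
    · exact ih _ h1
    · exact ih _ h2

theorem V_image {A : Finset ℕ} {t k : ℕ} {e : ℕ → ℕ} (he : Set.InjOn e (A : Set ℕ))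
    (h : V A t k) : V (A.image e) t k := by
  classical
  refine can_mono_set (const_anti _ t) k _ _ ?_ (can_image he k _ h)
  intro f hf x hx y hy hxy
  have hx' : e x ∈ ((A.image e : Finset ℕ) : Set ℕ) := by
    simp only [coe_image]; exact ⟨x, hx, rfl⟩
  have hy' : e y ∈ ((A.image e : Finset ℕ) : Set ℕ) := by
    simp only [coe_image]; exact ⟨y, hy, rfl⟩
  exact he hx hy (hf hx' hy' hxy)

theorem V_card {A B : Finset ℕ} (hAB : A.card = B.card) {t k : ℕ} (h : V A t k) :
    V B t k := by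
  classical
  let e := Finset.equivOfCardEq hAB
  let e' : ℕ → ℕ := fun x => if hx : x ∈ A then (e ⟨x, hx⟩ : ℕ) else 0
  have hinj : Set.InjOn e' (A : Set ℕ) := by
    intro x hx y hy hxy
    have hx' : x ∈ A := hx
    have hy' : y ∈ A := hy
    simp only [e', hx', hy', dif_pos] at hxy
    have := e.injective (Subtype.ext hxy)
    exact congrArg Subtype.val this
  have himg : A.image e' = B := by
    ext z
    simp only [mem_image]
    constructor
    · rintro ⟨x, hx, rfl⟩
      simp only [e', hx, dif_pos]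
      exact (e ⟨x, hx⟩).2
    · intro hz
      refine ⟨(e.symm ⟨z, hz⟩ : ℕ), (e.symm ⟨z, hz⟩).2, ?_⟩
      simp only [e', (e.symm ⟨z, hz⟩).2, dif_pos]
      simp
  rw [← himg]
  exact V_image hinj h

/-! ### declaring an element to be the maximum or the minimum -/

/-- the score function `f` with `w` declared to be larger than everything in `A` -/
def up (A : Finset ℕ) (w : ℕ) (f : ℕ → ℕ) : ℕ → ℕ := Function.update f w (1 + A.sup f)

/-- the score function `f` with `w` declared to be smaller than everything -/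
def dn (w : ℕ) (f : ℕ → ℕ) : ℕ → ℕ := Function.update (fun x => f x + 1) w 0

theorem up_self (A : Finset ℕ) (w : ℕ) (f : ℕ → ℕ) : up A w f w = 1 + A.sup f := by
  simp [up]

theorem up_ne (A : Finset ℕ) {w x : ℕ} (h : x ≠ w) (f : ℕ → ℕ) : up A w f x = f x := by
  simp [up, h]

theorem dn_self (w : ℕ) (f : ℕ → ℕ) : dn w f w = 0 := by
  simp [dn]

theorem dn_ne {w x : ℕ} (h : x ≠ w) (f : ℕ → ℕ) : dn w f x = f x + 1 := by
  simp [dn, h]

theorem up_lt (A : Finset ℕ) {w x : ℕ} (hx : x ∈ A) (h : x ≠ w) (f : ℕ → ℕ) :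
    up A w f x < up A w f w := by
  rw [up_self, up_ne A h]
  have : f x ≤ A.sup f := Finset.le_sup (f := f) hx
  omega

theorem top_up {A : Finset ℕ} {w : ℕ} (hw : w ∈ A) (t : ℕ) (f : ℕ → ℕ) :
    top A (t + 1) (up A w f) = insert w (top (A.erase w) t f) := by
  classical
  ext x
  simp only [top, mem_filter, mem_insert, mem_erase]
  by_cases hxw : x = w
  · subst hxw
    simp only [true_or, iff_true]
    refine ⟨hw, ?_⟩
    have : A.filter (fun y => up A x f x < up A x f y) = ∅ := by
      apply Finset.filter_eq_empty_iff.mpr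
      intro y hy hlt
      by_cases hyx : y = x
      · subst hyx; exact lt_irrefl _ hlt
      · exact lt_asymm hlt (up_lt A hy hyx f)
    rw [this]; simp
  · simp only [hxw, false_or, not_false_eq_true, true_and, ne_eq]
    refine and_congr_right (fun hx => ?_)
    have : A.filter (fun y => up A w f x < up A w f y)
        = insert w ((A.erase w).filter (fun y => f x < f y)) := by
      ext y
      simp only [mem_filter, mem_insert, mem_erase]
      by_cases hyw : y = w
      · subst hyw; simp [hw, up_lt A hx hxw f]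
      · rw [up_ne A hxw, up_ne A hyw]; simp [hyw]
    rw [this, Finset.card_insert_of_notMem (by simp)]
    omega

theorem top_dn {A : Finset ℕ} {w : ℕ} (hw : w ∈ A) {t : ℕ} (ht : t ≤ (A.erase w).card)
    (f : ℕ → ℕ) : top A t (dn w f) = top (A.erase w) t f := by
  classical
  ext x
  simp only [top, mem_filter, mem_erase]
  by_cases hxw : x = w
  · subst hxw
    simp only [ne_eq, not_true_eq_false, false_and, iff_false, not_and, not_lt]
    intro _
    have : A.filter (fun y => dn x f x < dn x f y) = A.erase x := by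
      ext y
      simp only [mem_filter, mem_erase]
      by_cases hyx : y = x
      · subst hyx; simp
      · rw [dn_self, dn_ne hyx]; simp [hyx]
    rw [this]; exact ht
  · simp only [ne_eq, hxw, not_false_eq_true, true_and]
    refine and_congr_right (fun hx => ?_)
    have : A.filter (fun y => dn w f x < dn w f y) = (A.erase w).filter (fun y => f x < f y) := by
      ext y
      simp only [mem_filter, mem_erase]
      by_cases hyw : y = w
      · subst hyw; simp [dn_self]
      · rw [dn_ne hxw, dn_ne hyw]; simp [hyw]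
    rw [this]

theorem can_up {A : Finset ℕ} {w : ℕ} (hw : w ∈ A) (hA : (A.erase w).Nonempty) (t : ℕ) :
    ∀ (k : ℕ) (P : Set (ℕ → ℕ)), Can A (Const A (t + 1)) k P →
      Can (A.erase w) (Const (A.erase w) t) k {f | up A w f ∈ P} := by
  classical
  intro k
  induction k with
  | zero =>
    intro P h f hf g hg
    have h1 := h _ hf _ hg
    rw [top_up hw, top_up hw] at h1
    have h2 : w ∉ top (A.erase w) t f := by simp [top]
    have h3 : w ∉ top (A.erase w) t g := by simp [top]
    rw [← Finset.erase_insert h2, h1, Finset.erase_insert h3]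
  | succ k ih =>
    rintro P ⟨x, hx, y, hy, h1, h2⟩
    by_cases hxw : x = w
    · subst hxw
      refine can_succ hA (const_anti _ t) (can_mono_set (const_anti _ t) k _ _ ?_ (ih _ h2))
      intro f hf
      refine ⟨hf, ?_⟩
      by_cases hyx : y = x
      · subst hyx; exact lt_irrefl _
      · exact not_lt.mpr (up_lt A hy hyx f).le
    · by_cases hyw : y = w
      · subst hyw
        refine can_succ hA (const_anti _ t) (can_mono_set (const_anti _ t) k _ _ ?_ (ih _ h1))
        intro f hf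
        exact ⟨hf, up_lt A hx hxw f⟩
      · refine ⟨x, mem_erase.mpr ⟨hxw, hx⟩, y, mem_erase.mpr ⟨hyw, hy⟩,
          can_mono_set (const_anti _ t) k _ _ ?_ (ih _ h1),
          can_mono_set (const_anti _ t) k _ _ ?_ (ih _ h2)⟩
        · rintro f ⟨hf, hf'⟩
          refine ⟨hf, ?_⟩
          rw [up_ne A hxw, up_ne A hyw]; exact hf'
        · rintro f ⟨hf, hf'⟩
          refine ⟨hf, ?_⟩
          rw [up_ne A hxw, up_ne A hyw]; exact hf'

theorem can_dn {A : Finset ℕ} {w : ℕ} (hw : w ∈ A) (hA : (A.erase w).Nonempty) {t : ℕ}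
    (ht : t ≤ (A.erase w).card) :
    ∀ (k : ℕ) (P : Set (ℕ → ℕ)), Can A (Const A t) k P →
      Can (A.erase w) (Const (A.erase w) t) k {f | dn w f ∈ P} := by
  classical
  intro k
  induction k with
  | zero =>
    intro P h f hf g hg
    have h1 := h _ hf _ hg
    rwa [top_dn hw ht, top_dn hw ht] at h1
  | succ k ih =>
    rintro P ⟨x, hx, y, hy, h1, h2⟩
    by_cases hyw : y = w
    · subst hyw
      refine can_succ hA (const_anti _ t) (can_mono_set (const_anti _ t) k _ _ ?_ (ih _ h2))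
      intro f hf
      refine ⟨hf, ?_⟩
      rw [dn_self]; exact Nat.not_lt_zero _
    · by_cases hxw : x = w
      · subst hxw
        refine can_succ hA (const_anti _ t) (can_mono_set (const_anti _ t) k _ _ ?_ (ih _ h1))
        intro f hf
        refine ⟨hf, ?_⟩
        rw [dn_self, dn_ne hyw]; exact Nat.succ_pos _
      · refine ⟨x, mem_erase.mpr ⟨hxw, hx⟩, y, mem_erase.mpr ⟨hyw, hy⟩,
          can_mono_set (const_anti _ t) k _ _ ?_ (ih _ h1),
          can_mono_set (const_anti _ t) k _ _ ?_ (ih _ h2)⟩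
        · rintro f ⟨hf, hf'⟩
          refine ⟨hf, ?_⟩
          rw [dn_ne hxw, dn_ne hyw]; omega
        · rintro f ⟨hf, hf'⟩
          refine ⟨hf, ?_⟩
          rw [dn_ne hxw, dn_ne hyw]; omega

theorem up_mem_Inj {A : Finset ℕ} {w : ℕ} {f : ℕ → ℕ} (hf : f ∈ Inj (A.erase w)) :
    up A w f ∈ Inj A := by
  intro x hx y hy hxy
  have hx' : x ∈ A := hx
  have hy' : y ∈ A := hy
  by_cases hxw : x = w
  · by_cases hyw : y = w
    · rw [hxw, hyw]
    · subst hxw
      exact absurd hxy (ne_of_gt (up_lt A hy' hyw f))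
  · by_cases hyw : y = w
    · subst hyw
      exact absurd hxy (ne_of_lt (up_lt A hx' hxw f))
    · rw [up_ne A hxw, up_ne A hyw] at hxy
      exact hf (by simp [hxw, hx']) (by simp [hyw, hy']) hxy

theorem dn_mem_Inj {A : Finset ℕ} {w : ℕ} {f : ℕ → ℕ} (hf : f ∈ Inj (A.erase w)) :
    dn w f ∈ Inj A := by
  intro x hx y hy hxy
  have hx' : x ∈ A := hx
  have hy' : y ∈ A := hy
  by_cases hxw : x = w
  · by_cases hyw : y = w
    · rw [hxw, hyw]
    · subst hxw
      rw [dn_self, dn_ne hyw] at hxy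
      omega
  · by_cases hyw : y = w
    · subst hyw
      rw [dn_self, dn_ne hxw] at hxy
      omega
    · rw [dn_ne hxw, dn_ne hyw] at hxy
      exact hf (by simp [hxw, hx']) (by simp [hyw, hy']) (by omega)

/-- minimal number of comparisons for finding the top `t` of `n` elements -/
noncomputable def u (n t : ℕ) : ℕ := sInf {k | V (range n) t k}

end Pool.Sel63c848
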