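import Mathlib
import Pool.Agent.Lib.MP_63c848_lc.Basic

set_option autoImplicit false

namespace Pool.Sel63c848

open Finset

/-- the comparisons of the pairs in `L` have been made, the first component won -/
def PL (L : List (ℕ × ℕ)) : Set (ℕ → ℕ) := {f | ∀ p ∈ L, f p.2 < f p.1}

/-- `L` is a list of disjoint pairs in `A` -/
def Pairs (A : Finset ℕ) (L : List (ℕ × ℕ)) : Prop :=
  (L.flatMap (fun p => [p.1, p.2])).Nodup ∧ ∀ p ∈ L, p.1 ∈ A ∧ p.2 ∈ A

theorem pairs_nil (A : Finset ℕ) : Pairs A [] := by simp [Pairs]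

theorem pairs_cons {A : Finset ℕ} {w l : ℕ} {L : List (ℕ × ℕ)} :
    Pairs A ((w, l) :: L) ↔ w ≠ l ∧ w ∈ A ∧ l ∈ A ∧
      (∀ p ∈ L, p.1 ≠ w ∧ p.2 ≠ w ∧ p.1 ≠ l ∧ p.2 ≠ l) ∧ Pairs A L := by
  unfold Pairs
  simp only [List.flatMap_cons, List.cons_append, List.nil_append, List.nodup_cons,
    List.mem_cons, List.mem_flatMap, List.not_mem_nil, or_false, not_or, not_exists, not_and,
    forall_eq_or_imp]
  constructor
  · rintro ⟨⟨⟨h1, h2⟩, h3, h4⟩, ⟨h5, h6⟩, h7⟩
    refine ⟨h1, h5, h6, fun p hp => ⟨?_, ?_, ?_, ?_⟩, h4, h7⟩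
    · exact fun h => (h2 p hp).1 h.symm
    · exact fun h => (h2 p hp).2 h.symm
    · exact fun h => (h3 p hp).1 h.symm
    · exact fun h => (h3 p hp).2 h.symm
  · rintro ⟨h1, h5, h6, h, h4, h7⟩
    refine ⟨⟨⟨h1, fun p hp => ⟨fun e => (h p hp).1 e.symm, fun e => (h p hp).2.1 e.symm⟩⟩,
      fun p hp => ⟨fun e => (h p hp).2.2.1 e.symm, fun e => (h p hp).2.2.2 e.symm⟩, h4⟩,
      ⟨h5, h6⟩, h7⟩

theorem fresh_pairs {A : Finset ℕ} {t : ℕ} :
    ∀ (L : List (ℕ × ℕ)) (k : ℕ), Pairs A L →
      Can A (Const A t) k {f | f ∈ Inj A ∧ f ∈ PL L} → V A t (k + L.length) := by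
  classical
  intro L
  induction L with
  | nil =>
    intro k _ h
    refine can_mono_set (const_anti _ t) k _ _ ?_ h
    intro f hf
    exact ⟨hf, by simp [PL]⟩
  | cons p L ih =>
    obtain ⟨w, l⟩ := p
    intro k hL h
    rw [pairs_cons] at hL
    obtain ⟨hwl, hw, hl, hne, hL'⟩ := hL
    have : k + ((w, l) :: L).length = (k + 1) + L.length := by
      simp only [List.length_cons]; omega
    rw [this]
    apply ih (k + 1) hL'
    refine ⟨l, hl, w, hw, ?_, ?_⟩
    · refine can_mono_set (const_anti _ t) k _ _ ?_ h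
      rintro f ⟨⟨h1, h2⟩, h3⟩
      refine ⟨h1, ?_⟩
      intro p hp
      rcases List.mem_cons.mp hp with rfl | hp
      · exact h3
      · exact h2 p hp
    · let e : ℕ → ℕ := Equiv.swap w l
      have he : Set.InjOn e (A : Set ℕ) := (Equiv.swap w l).injective.injOn
      have himg : A.image e = A := by
        ext z
        simp only [mem_image]
        constructor
        · rintro ⟨x, hx, rfl⟩
          by_cases h1 : x = w
          · subst h1; simpa [e] using hl
          · by_cases h2 : x = l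
            · subst h2; simpa [e] using hw
            · simpa [e, Equiv.swap_apply_of_ne_of_ne h1 h2] using hx
        · intro hz
          refine ⟨e z, ?_, by simp [e]⟩
          by_cases h1 : z = w
          · subst h1; simpa [e] using hl
          · by_cases h2 : z = l
            · subst h2; simpa [e] using hw
            · simpa [e, Equiv.swap_apply_of_ne_of_ne h1 h2] using hz
      have h' := can_image he k _ h
      rw [himg] at h'
      refine can_mono_set (const_anti _ t) k _ _ ?_ h'
      rintro f ⟨⟨h1, h2⟩, h3⟩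
      have h3' : f w < f l := by
        rcases Nat.lt_trichotomy (f l) (f w) with h4 | h4 | h4
        · exact absurd h4 h3
        · exact absurd (h1 hl hw h4) (Ne.symm hwl)
        · exact h4
      refine ⟨?_, ?_⟩
      · intro x hx y hy hxy
        have hx' : e x ∈ A := by rw [← himg]; exact mem_image_of_mem e hx
        have hy' : e y ∈ A := by rw [← himg]; exact mem_image_of_mem e hy
        exact he hx hy (h1 hx' hy' hxy)
      · intro p hp
        rcases List.mem_cons.mp hp with rfl | hp
        · simp only [Function.comp, e, Equiv.swap_apply_right, Equiv.swap_apply_left]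
          exact h3'
        · obtain ⟨n1, n2, n3, n4⟩ := hne p hp
          simp only [Function.comp, e, Equiv.swap_apply_of_ne_of_ne n1 n3,
            Equiv.swap_apply_of_ne_of_ne n2 n4]
          exact h2 p hp

theorem pairs_mono {A B : Finset ℕ} {L : List (ℕ × ℕ)} (h : Pairs A L)
    (hB : ∀ p ∈ L, p.1 ∈ B ∧ p.2 ∈ B) : Pairs B L := ⟨h.1, hB⟩

theorem pairs_perm {A : Finset ℕ} {L L' : List (ℕ × ℕ)} (h : L.Perm L') (hL : Pairs A L) :
    Pairs A L' :=
  ⟨(h.flatMap_right _).nodup_iff.mp hL.1, fun p hp => hL.2 p (h.mem_iff.mpr hp)⟩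

theorem pairs_length {A : Finset ℕ} {L : List (ℕ × ℕ)} (h : Pairs A L) :
    2 * L.length ≤ A.card := by
  classical
  have h1 : (L.flatMap (fun p => [p.1, p.2])).length = 2 * L.length := by
    rw [List.length_flatMap]
    simp [mul_comm]
  have h2 : (L.flatMap (fun p => [p.1, p.2])).toFinset ⊆ A := by
    intro x hx
    simp only [List.mem_toFinset, List.mem_flatMap, List.mem_cons, List.not_mem_nil,
      or_false] at hx
    obtain ⟨p, hp, h3⟩ := hx
    rcases h3 with rfl | rfl
    · exact (h.2 p hp).1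
    · exact (h.2 p hp).2
  have h3 := Finset.card_le_card h2
  rw [List.toFinset_card_of_nodup h.1, h1] at h3
  exact h3

end Pool.Sel63c848
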