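import Mathlib
import Pool.Agent.Lib.MP_63c848_lc.Pairs

set_option autoImplicit false

namespace Pool.Sel63c848

open Finset

theorem id_mem_Inj (A : Finset ℕ) : (id : ℕ → ℕ) ∈ Inj A := fun _ _ _ _ h => h

theorem not_const {A : Finset ℕ} {t : ℕ} (h1 : 1 ≤ t) (h2 : t < A.card) : ¬ V A t 0 := by
  classical
  intro h
  have hne : A.Nonempty := card_pos.mp (by omega)
  obtain ⟨w, hw⟩ := hne
  have h3 := h (up A w id) (up_mem_Inj (id_mem_Inj _)) (dn w id) (dn_mem_Inj (id_mem_Inj _))
  obtain ⟨s, rfl⟩ : ∃ s, t = s + 1 := ⟨t - 1, by omega⟩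
  rw [top_up hw, top_dn hw (by rw [card_erase_of_mem hw]; omega)] at h3
  have h4 : w ∈ insert w (top (A.erase w) s id) := mem_insert_self _ _
  rw [h3] at h4
  simp [top] at h4

theorem V_pred_max {A : Finset ℕ} {t : ℕ} (h2 : t + 1 < A.card) :
    ∀ k, V A (t + 1) k → ∃ j, k = j + 1 ∧ ∃ w ∈ A, V (A.erase w) t j := by
  classical
  intro k
  induction k with
  | zero => intro h; exact absurd h (not_const (by omega) h2)
  | succ k ih =>
    rintro ⟨x, hx, y, hy, h3, h4⟩
    have hne : (A.erase x).Nonempty := card_pos.mp (by rw [card_erase_of_mem hx]; omega)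
    by_cases hxy : x = y
    · subst hxy
      have h5 : V A (t + 1) k := by
        refine can_mono_set (const_anti _ _) k _ _ ?_ h4
        intro f hf
        exact ⟨hf, lt_irrefl _⟩
      obtain ⟨j, hj, w, hw, h6⟩ := ih h5
      have hne' : (A.erase w).Nonempty := card_pos.mp (by rw [card_erase_of_mem hw]; omega)
      exact ⟨j + 1, by omega, w, hw, V_succ hne' h6⟩
    · refine ⟨k, rfl, x, hx, ?_⟩
      refine can_mono_set (const_anti _ _) k _ _ ?_ (can_up hx hne t k _ h4)
      intro f hf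
      exact ⟨up_mem_Inj hf, not_lt.mpr (up_lt A hy (Ne.symm hxy) f).le⟩

theorem V_pred_min {A : Finset ℕ} {t : ℕ} (h1 : 1 ≤ t) (h2 : t < A.card) :
    ∀ k, V A t k → ∃ j, k = j + 1 ∧ ∃ w ∈ A, V (A.erase w) t j := by
  classical
  intro k
  induction k with
  | zero => intro h; exact absurd h (not_const h1 h2)
  | succ k ih =>
    rintro ⟨x, hx, y, hy, h3, h4⟩
    have hne : (A.erase x).Nonempty := card_pos.mp (by rw [card_erase_of_mem hx]; omega)
    by_cases hxy : x = y
    · subst hxy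
      have h5 : V A t k := by
        refine can_mono_set (const_anti _ _) k _ _ ?_ h4
        intro f hf
        exact ⟨hf, lt_irrefl _⟩
      obtain ⟨j, hj, w, hw, h6⟩ := ih h5
      have hne' : (A.erase w).Nonempty := card_pos.mp (by rw [card_erase_of_mem hw]; omega)
      exact ⟨j + 1, by omega, w, hw, V_succ hne' h6⟩
    · refine ⟨k, rfl, x, hx, ?_⟩
      refine can_mono_set (const_anti _ _) k _ _ ?_
        (can_dn hx hne (t := t) (by rw [card_erase_of_mem hx]; omega) k _ h3)
      intro f hf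
      refine ⟨dn_mem_Inj hf, ?_⟩
      rw [dn_self, dn_ne (Ne.symm hxy)]
      exact Nat.succ_pos _

theorem V_lower : ∀ (n : ℕ) {A : Finset ℕ} {s k : ℕ}, A.card = n + 1 → 1 ≤ s → s < A.card →
    V A s k → n ≤ k := by
  classical
  intro n
  induction n with
  | zero => intro A s k _ _ _ _; exact Nat.zero_le _
  | succ n ih =>
    intro A s k hc h1 h2 h
    by_cases hs : s + 1 < A.card
    · obtain ⟨j, rfl, w, hw, h3⟩ := V_pred_min h1 h2 k h
      have hc' : (A.erase w).card = n + 1 := by rw [card_erase_of_mem hw]; omega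
      have := ih hc' h1 (by omega) h3
      omega
    · by_cases hn : n = 0
      · subst hn
        obtain ⟨j, rfl, w, hw, h3⟩ := V_pred_min h1 h2 k h
        omega
      · obtain ⟨t, rfl⟩ : ∃ t, s = t + 1 := ⟨s - 1, by omega⟩
        obtain ⟨j, rfl, w, hw, h3⟩ := V_pred_max h2 k h
        have hc' : (A.erase w).card = n + 1 := by rw [card_erase_of_mem hw]; omega
        have := ih hc' (by omega) (by omega) h3
        omega

/-- the key adversary argument: as long as only fresh elements are compared nothing is lost;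
the first comparison which involves an element of a pair lets the adversary declare a winner
to be the maximum or a loser to be the minimum, wasting two comparisons. -/
theorem key {A : Finset ℕ} {t : ℕ} (h3 : 3 ≤ A.card) (h2 : t + 1 < A.card) :
    ∀ (k : ℕ) (L : List (ℕ × ℕ)), Pairs A L →
      Can A (Const A (t + 1)) k {f | f ∈ Inj A ∧ f ∈ PL L} →
      (∃ w ∈ A, ∃ j, V (A.erase w) t j ∧ j + 2 ≤ k + L.length) ∨
      (∃ w ∈ A, ∃ j, V (A.erase w) (t + 1) j ∧ j + 2 ≤ k + L.length) := by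
  classical
  intro k
  induction k with
  | zero =>
    intro L hL h
    exfalso
    have h4 := fresh_pairs L 0 hL h
    have h5 := V_lower (A.card - 1) (by omega) (by omega) h2 h4
    have h6 := pairs_length hL
    omega
  | succ k ih =>
    rintro L hL ⟨x, hx, y, hy, hb1, hb2⟩
    have hne : ∀ w ∈ A, (A.erase w).Nonempty := fun w hw =>
      card_pos.mp (by rw [card_erase_of_mem hw]; omega)
    by_cases hxy : x = y
    · subst hxy
      have h5 : Can A (Const A (t + 1)) k {f | f ∈ Inj A ∧ f ∈ PL L} := by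
        refine can_mono_set (const_anti _ _) k _ _ ?_ hb2
        intro f hf
        exact ⟨hf, lt_irrefl _⟩
      rcases ih L hL h5 with ⟨w, hw, j, h6, h7⟩ | ⟨w, hw, j, h6, h7⟩
      · exact Or.inl ⟨w, hw, j, h6, by omega⟩
      · exact Or.inr ⟨w, hw, j, h6, by omega⟩
    -- a winner is compared again
    have win : ∀ w l, (w, l) ∈ L → ∀ P : Set (ℕ → ℕ), Can A (Const A (t + 1)) k P →
        (∀ f ∈ Inj A, f ∈ PL L → (∀ z ∈ A, z ≠ w → f z < f w) → f ∈ P) →
        (∃ w ∈ A, ∃ j, V (A.erase w) t j ∧ j + 2 ≤ k + 1 + L.length) := by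
      intro w l hwl P hP hP'
      have hperm := List.perm_cons_erase hwl
      have hL2 := pairs_perm hperm hL
      rw [pairs_cons] at hL2
      obtain ⟨hne1, hw, hl, hdis, hL3⟩ := hL2
      have hL4 : Pairs (A.erase w) (L.erase (w, l)) := by
        refine pairs_mono hL3 (fun p hp => ?_)
        obtain ⟨n1, n2, n3, n4⟩ := hdis p hp
        exact ⟨mem_erase.mpr ⟨n1, (hL3.2 p hp).1⟩, mem_erase.mpr ⟨n2, (hL3.2 p hp).2⟩⟩
      have h5 := can_up hw (hne w hw) t k P hP
      have h6 : Can (A.erase w) (Const (A.erase w) t) k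
          {f | f ∈ Inj (A.erase w) ∧ f ∈ PL (L.erase (w, l))} := by
        refine can_mono_set (const_anti _ _) k _ _ ?_ h5
        rintro f ⟨hf1, hf2⟩
        refine hP' _ (up_mem_Inj hf1) ?_ (fun z hz hzw => up_lt A hz hzw f)
        intro p hp
        rcases List.mem_cons.mp (hperm.mem_iff.mp hp) with rfl | hp'
        · exact up_lt A hl (Ne.symm hne1) f
        · obtain ⟨n1, n2, n3, n4⟩ := hdis p hp'
          rw [up_ne A n1, up_ne A n2]
          exact hf2 p hp'
      have h7 := fresh_pairs _ k hL4 h6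
      have h8 : (L.erase (w, l)).length + 1 = L.length := by
        rw [hperm.length_eq, List.length_cons]
      exact ⟨w, hw, _, h7, by omega⟩
    have los : ∀ w l, (w, l) ∈ L → ∀ P : Set (ℕ → ℕ), Can A (Const A (t + 1)) k P →
        (∀ f ∈ Inj A, f ∈ PL L → (∀ z ∈ A, z ≠ l → f l < f z) → f ∈ P) →
        (∃ w ∈ A, ∃ j, V (A.erase w) (t + 1) j ∧ j + 2 ≤ k + 1 + L.length) := by
      intro w l hwl P hP hP'
      have hperm := List.perm_cons_erase hwl
      have hL2 := pairs_perm hperm hL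
      rw [pairs_cons] at hL2
      obtain ⟨hne1, hw, hl, hdis, hL3⟩ := hL2
      have hL4 : Pairs (A.erase l) (L.erase (w, l)) := by
        refine pairs_mono hL3 (fun p hp => ?_)
        obtain ⟨n1, n2, n3, n4⟩ := hdis p hp
        exact ⟨mem_erase.mpr ⟨n3, (hL3.2 p hp).1⟩, mem_erase.mpr ⟨n4, (hL3.2 p hp).2⟩⟩
      have h5 := can_dn hl (hne l hl) (t := t + 1)
        (by rw [card_erase_of_mem hl]; omega) k P hP
      have h6 : Can (A.erase l) (Const (A.erase l) (t + 1)) k
          {f | f ∈ Inj (A.erase l) ∧ f ∈ PL (L.erase (w, l))} := by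
        refine can_mono_set (const_anti _ _) k _ _ ?_ h5
        rintro f ⟨hf1, hf2⟩
        have hz : ∀ z ∈ A, z ≠ l → dn l f l < dn l f z := by
          intro z _ hzl
          rw [dn_self, dn_ne hzl]; exact Nat.succ_pos _
        refine hP' _ (dn_mem_Inj hf1) ?_ hz
        intro p hp
        rcases List.mem_cons.mp (hperm.mem_iff.mp hp) with rfl | hp'
        · exact hz w hw hne1
        · obtain ⟨n1, n2, n3, n4⟩ := hdis p hp'
          rw [dn_ne n3, dn_ne n4]
          have := hf2 p hp'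
          omega
      have h7 := fresh_pairs _ k hL4 h6
      have h8 : (L.erase (w, l)).length + 1 = L.length := by
        rw [hperm.length_eq, List.length_cons]
      exact ⟨l, hl, _, h7, by omega⟩
    by_cases hxw : ∃ l, (x, l) ∈ L
    · obtain ⟨l, hxl⟩ := hxw
      refine Or.inl (win x l hxl _ hb2 ?_)
      intro f hf1 hf2 hf3
      exact ⟨⟨hf1, hf2⟩, not_lt.mpr (hf3 y hy (Ne.symm hxy)).le⟩
    by_cases hyw : ∃ l, (y, l) ∈ L
    · obtain ⟨l, hyl⟩ := hyw
      refine Or.inl (win y l hyl _ hb1 ?_)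
      intro f hf1 hf2 hf3
      exact ⟨⟨hf1, hf2⟩, hf3 x hx hxy⟩
    by_cases hxl : ∃ w, (w, x) ∈ L
    · obtain ⟨w, hwx⟩ := hxl
      refine Or.inr (los w x hwx _ hb1 ?_)
      intro f hf1 hf2 hf3
      exact ⟨⟨hf1, hf2⟩, hf3 y hy (Ne.symm hxy)⟩
    by_cases hyl : ∃ w, (w, y) ∈ L
    · obtain ⟨w, hwy⟩ := hyl
      refine Or.inr (los w y hwy _ hb2 ?_)
      intro f hf1 hf2 hf3
      exact ⟨⟨hf1, hf2⟩, not_lt.mpr (hf3 x hx hxy).le⟩
    -- both fresh
    have hL' : Pairs A ((x, y) :: L) := by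
      rw [pairs_cons]
      refine ⟨hxy, hx, hy, fun p hp => ⟨?_, ?_, ?_, ?_⟩, hL⟩
      · rintro rfl; exact hxw ⟨p.2, hp⟩
      · rintro rfl; exact hxl ⟨p.1, hp⟩
      · rintro rfl; exact hyw ⟨p.2, hp⟩
      · rintro rfl; exact hyl ⟨p.1, hp⟩
    have h5 : Can A (Const A (t + 1)) k {f | f ∈ Inj A ∧ f ∈ PL ((x, y) :: L)} := by
      refine can_mono_set (const_anti _ _) k _ _ ?_ hb2
      rintro f ⟨hf1, hf2⟩
      refine ⟨⟨hf1, fun p hp => hf2 p (List.mem_cons_of_mem _ hp)⟩, ?_⟩
      have : f y < f x := hf2 (x, y) List.mem_cons_self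
      omega
    rcases ih _ hL' h5 with ⟨w, hw, j, h6, h7⟩ | ⟨w, hw, j, h6, h7⟩
    · exact Or.inl ⟨w, hw, j, h6, by simp only [List.length_cons] at h7; omega⟩
    · exact Or.inr ⟨w, hw, j, h6, by simp only [List.length_cons] at h7; omega⟩

end Pool.Sel63c848
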