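import Mathlib
import Pool.Agent.Lib.MP_63c848_lc.Lower

set_option autoImplicit false

namespace Pool.Sel63c848

open Finset

/-- knockout trees -/
inductive T where
  | leaf : ℕ → T
  | node : T → T → T

def T.list : T → List ℕ
  | .leaf a => [a]
  | .node l r => l.list ++ r.list

def T.height : T → ℕ
  | .leaf _ => 0
  | .node l r => max l.height r.height + 1

/-- winner of the knockout tree after the elements of `D` have been removed -/
def T.mx (D : Finset ℕ) (f : ℕ → ℕ) : T → Option ℕ
  | .leaf a => if a ∈ D then none else some a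
  | .node l r =>
    match l.mx D f, r.mx D f with
    | none, o => o
    | some a, none => some a
    | some a, some b => if f a < f b then some b else some a

/-- all winners of subtrees are known -/
def T.K (P : Set (ℕ → ℕ)) (D : Finset ℕ) : T → Prop
  | .leaf _ => True
  | .node l r => l.K P D ∧ r.K P D ∧
      ∀ f ∈ P, ∀ g ∈ P, (T.node l r).mx D f = (T.node l r).mx D g

theorem T.K_const {P : Set (ℕ → ℕ)} {D : Finset ℕ} {t : T} (h : t.K P D) :
    ∀ f ∈ P, ∀ g ∈ P, t.mx D f = t.mx D g := by
  cases t with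
  | leaf a => intro f _ g _; rfl
  | node l r => exact h.2.2

theorem T.K_anti {D : Finset ℕ} (t : T) {P P' : Set (ℕ → ℕ)} (hP : P' ⊆ P) (h : t.K P D) :
    t.K P' D := by
  induction t with
  | leaf a => trivial
  | node l r ihl ihr =>
    exact ⟨ihl h.1, ihr h.2.1, fun f hf g hg => h.2.2 f (hP hf) g (hP hg)⟩

theorem T.mx_none {D : Finset ℕ} {f : ℕ → ℕ} : ∀ (t : T), t.mx D f = none →
    ∀ b ∈ t.list, b ∈ D := by
  intro t
  induction t with
  | leaf a =>
    intro h b hb
    simp only [T.mx] at h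
    simp only [T.list, List.mem_singleton] at hb
    subst hb
    by_contra hc
    simp [hc] at h
  | node l r ihl ihr =>
    intro h b hb
    simp only [T.mx] at h
    simp only [T.list, List.mem_append] at hb
    cases h1 : l.mx D f with
    | none =>
      rw [h1] at h
      rcases hb with hb | hb
      · exact ihl h1 b hb
      · exact ihr h b hb
    | some a =>
      rw [h1] at h
      cases h2 : r.mx D f with
      | none => rw [h2] at h; exact absurd h (by simp)
      | some c => rw [h2] at h; simp only at h; split_ifs at h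

theorem T.mx_some {D : Finset ℕ} {f : ℕ → ℕ} : ∀ (t : T) (c : ℕ), t.mx D f = some c →
    c ∈ t.list ∧ c ∉ D ∧ ∀ b ∈ t.list, b ∉ D → f b ≤ f c := by
  intro t
  induction t with
  | leaf a =>
    intro c h
    simp only [T.mx] at h
    split_ifs at h with hc
    simp only [Option.some.injEq] at h
    subst h
    refine ⟨by simp [T.list], hc, ?_⟩
    intro b hb _
    simp only [T.list, List.mem_singleton] at hb
    rw [hb]
  | node l r ihl ihr =>
    intro c h
    simp only [T.mx] at h
    simp only [T.list, List.mem_append]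
    cases h1 : l.mx D f with
    | none =>
      rw [h1] at h
      obtain ⟨h3, h4, h5⟩ := ihr c h
      refine ⟨Or.inr h3, h4, ?_⟩
      rintro b (hb | hb) hbD
      · exact absurd (T.mx_none l h1 b hb) hbD
      · exact h5 b hb hbD
    | some a =>
      rw [h1] at h
      obtain ⟨a1, a2, a3⟩ := ihl a h1
      cases h2 : r.mx D f with
      | none =>
        rw [h2] at h
        simp only [Option.some.injEq] at h
        subst h
        refine ⟨Or.inl a1, a2, ?_⟩
        rintro b (hb | hb) hbD
        · exact a3 b hb hbD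
        · exact absurd (T.mx_none r h2 b hb) hbD
      | some b' =>
        rw [h2] at h
        obtain ⟨b1, b2, b3⟩ := ihr b' h2
        simp only at h
        split_ifs at h with hlt
        · simp only [Option.some.injEq] at h
          subst h
          refine ⟨Or.inr b1, b2, ?_⟩
          rintro b (hb | hb) hbD
          · exact (a3 b hb hbD).trans hlt.le
          · exact b3 b hb hbD
        · simp only [Option.some.injEq] at h
          subst h
          refine ⟨Or.inl a1, a2, ?_⟩
          rintro b (hb | hb) hbD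
          · exact a3 b hb hbD
          · exact (b3 b hb hbD).trans (not_lt.mp hlt)

theorem T.mx_insert {D : Finset ℕ} {f : ℕ → ℕ} {x : ℕ} : ∀ (t : T), x ∉ t.list →
    t.mx (insert x D) f = t.mx D f := by
  intro t
  induction t with
  | leaf a =>
    intro h
    simp only [T.list, List.mem_singleton] at h
    simp only [T.mx, mem_insert, Ne.symm h, false_or]
  | node l r ihl ihr =>
    intro h
    simp only [T.list, List.mem_append, not_or] at h
    simp only [T.mx, ihl h.1, ihr h.2]

theorem T.K_insert {P : Set (ℕ → ℕ)} {D : Finset ℕ} {x : ℕ} : ∀ (t : T), x ∉ t.list →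
    t.K P D → t.K P (insert x D) := by
  intro t
  induction t with
  | leaf a => intro _ _; trivial
  | node l r ihl ihr =>
    intro h hK
    have h' := h
    simp only [T.list, List.mem_append, not_or] at h'
    refine ⟨ihl h'.1 hK.1, ihr h'.2 hK.2.1, ?_⟩
    intro f hf g hg
    rw [T.mx_insert _ h, T.mx_insert _ h]
    exact hK.2.2 f hf g hg

theorem can_and {A : Finset ℕ} {Q R : Set (ℕ → ℕ) → Prop} (hR : ∀ P P', P' ⊆ P → R P → R P') :
    ∀ (k : ℕ) (P : Set (ℕ → ℕ)), R P → Can A Q k P → Can A (fun P => Q P ∧ R P) k P := by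
  intro k
  induction k with
  | zero => intro P h1 h2; exact ⟨h2, h1⟩
  | succ k ih =>
    rintro P h1 ⟨x, hx, y, hy, h2, h3⟩
    exact ⟨x, hx, y, hy, ih _ (hR P _ (fun f hf => hf.1) h1) h2,
      ih _ (hR P _ (fun f hf => hf.1) h1) h3⟩

theorem T.K_anti' (D : Finset ℕ) (t : T) : ∀ P P' : Set (ℕ → ℕ), P' ⊆ P → t.K P D → t.K P' D :=
  fun _ _ h h1 => t.K_anti h h1

theorem node_step {A : Finset ℕ} (hA : A.Nonempty) {P : Set (ℕ → ℕ)} {D : Finset ℕ} {l r : T}
    (hl : ∀ a ∈ l.list, a ∈ A) (hr : ∀ a ∈ r.list, a ∈ A) (h1 : l.K P D) (h2 : r.K P D) :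
    Can A (fun P' => (T.node l r).K P' D) 1 P := by
  by_cases hP : ∃ f0, f0 ∈ P
  · obtain ⟨f0, hf0⟩ := hP
    have c1 : ∀ f ∈ P, l.mx D f = l.mx D f0 := fun f hf => T.K_const h1 f hf f0 hf0
    have c2 : ∀ f ∈ P, r.mx D f = r.mx D f0 := fun f hf => T.K_const h2 f hf f0 hf0
    cases ha : l.mx D f0 with
    | none =>
      refine can_succ hA (T.K_anti' D _) (k := 0) ⟨h1, h2, ?_⟩
      intro f hf g hg
      simp only [T.mx, c1 f hf, c1 g hg, c2 f hf, c2 g hg, ha]
    | some a =>
      cases hb : r.mx D f0 with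
      | none =>
        refine can_succ hA (T.K_anti' D _) (k := 0) ⟨h1, h2, ?_⟩
        intro f hf g hg
        simp only [T.mx, c1 f hf, c1 g hg, c2 f hf, c2 g hg, ha, hb]
      | some b =>
        refine ⟨a, hl a (T.mx_some l a ha).1, b, hr b (T.mx_some r b hb).1, ?_, ?_⟩
        · refine ⟨l.K_anti (fun f hf => hf.1) h1, r.K_anti (fun f hf => hf.1) h2, ?_⟩
          rintro f ⟨hf, hf'⟩ g ⟨hg, hg'⟩
          simp only [T.mx, c1 f hf, c1 g hg, c2 f hf, c2 g hg, ha, hb, hf', hg', if_true]
        · refine ⟨l.K_anti (fun f hf => hf.1) h1, r.K_anti (fun f hf => hf.1) h2, ?_⟩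
          rintro f ⟨hf, hf'⟩ g ⟨hg, hg'⟩
          simp only [T.mx, c1 f hf, c1 g hg, c2 f hf, c2 g hg, ha, hb, hf', hg', if_false]
  · push Not at hP
    refine can_succ hA (T.K_anti' D _) (k := 0) ?_
    refine ⟨?_, ?_, fun f hf => absurd hf (hP f)⟩
    · exact l.K_anti (P := P) subset_rfl h1
    · exact r.K_anti (P := P) subset_rfl h2

theorem T.list_pos (t : T) : 1 ≤ t.list.length := by
  induction t with
  | leaf a => simp [T.list]
  | node l r ihl ihr => simp only [T.list, List.length_append]; omega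

theorem build {A : Finset ℕ} (hA : A.Nonempty) : ∀ (t : T), (∀ a ∈ t.list, a ∈ A) →
    ∀ P : Set (ℕ → ℕ), Can A (fun P' => t.K P' ∅) (t.list.length - 1) P := by
  intro t
  induction t with
  | leaf a => intro _ P; trivial
  | node l r ihl ihr =>
    intro h P
    simp only [T.list, List.mem_append] at h
    have hl : ∀ a ∈ l.list, a ∈ A := fun a ha => h a (Or.inl ha)
    have hr : ∀ a ∈ r.list, a ∈ A := fun a ha => h a (Or.inr ha)
    have e : (T.node l r).list.length - 1 = (l.list.length - 1) + ((r.list.length - 1) + 1) := by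
      have := l.list_pos
      have := r.list_pos
      simp only [T.list, List.length_append]; omega
    rw [e]
    refine can_seq ?_ _ P (ihl hl P)
    intro P1 h1
    refine can_seq ?_ _ P1 (can_and (T.K_anti' ∅ l) _ P1 h1 (ihr hr P1))
    rintro P2 ⟨h2, h3⟩
    exact node_step hA hl hr h3 h2

theorem update {A : Finset ℕ} (hA : A.Nonempty) (x : ℕ) (D : Finset ℕ) : ∀ (t : T),
    (∀ a ∈ t.list, a ∈ A) → t.list.Nodup → ∀ P : Set (ℕ → ℕ), t.K P D →
    Can A (fun P' => t.K P' (insert x D)) t.height P := by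
  intro t
  induction t with
  | leaf a => intro _ _ P _; trivial
  | node l r ihl ihr =>
    intro h hnd P hK
    simp only [T.list, List.mem_append] at h
    have hl : ∀ a ∈ l.list, a ∈ A := fun a ha => h a (Or.inl ha)
    have hr : ∀ a ∈ r.list, a ∈ A := fun a ha => h a (Or.inr ha)
    simp only [T.list, List.nodup_append] at hnd
    by_cases hx : x ∈ l.list
    · have hx' : x ∉ r.list := fun hx' => hnd.2.2 x hx x hx' rfl
      have h1 : Can A (fun P' => (T.node l r).K P' (insert x D)) (l.height + 1) P := by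
        refine can_seq ?_ _ P (can_and (T.K_anti' (insert x D) r) _ P
          (T.K_insert r hx' hK.2.1) (ihl hl hnd.1 P hK.1))
        rintro P2 ⟨h2, h3⟩
        exact node_step hA hl hr h2 h3
      exact can_le hA (T.K_anti' _ _) (by simp only [T.height]; omega) h1
    · have h1 : Can A (fun P' => (T.node l r).K P' (insert x D)) (r.height + 1) P := by
        refine can_seq ?_ _ P (can_and (T.K_anti' (insert x D) l) _ P
          (T.K_insert l hx hK.1) (ihr hr hnd.2.1 P hK.2.1))
        rintro P2 ⟨h2, h3⟩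
        exact node_step hA hl hr h3 h2
      exact can_le hA (T.K_anti' _ _) (by simp only [T.height]; omega) h1

/-- `D` consists of the `j` largest elements of `A` -/
def IsTop (A : Finset ℕ) (j : ℕ) (f : ℕ → ℕ) (D : Finset ℕ) : Prop :=
  D ⊆ A ∧ D.card = j ∧ ∀ d ∈ D, ∀ x ∈ A, x ∉ D → f x < f d

theorem top_of_isTop {A : Finset ℕ} {j : ℕ} {f : ℕ → ℕ} {D : Finset ℕ} (h : IsTop A j f D) :
    top A j f = D := by
  obtain ⟨h1, h2, h3⟩ := h
  ext x
  simp only [top, mem_filter]
  constructor
  · rintro ⟨hx, hlt⟩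
    by_contra hxD
    have : D ⊆ A.filter (fun y => f x < f y) := by
      intro d hd
      exact mem_filter.mpr ⟨h1 hd, h3 d hd x hx hxD⟩
    have := card_le_card this
    omega
  · intro hx
    refine ⟨h1 hx, ?_⟩
    have : A.filter (fun y => f x < f y) ⊆ D.erase x := by
      intro y hy
      rw [mem_filter] at hy
      have hyx : y ≠ x := by rintro rfl; exact lt_irrefl _ hy.2
      refine mem_erase.mpr ⟨hyx, ?_⟩
      by_contra hyD
      exact lt_asymm hy.2 (h3 x hx y hy.1 hyD)
    have h4 := card_le_card this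
    rw [card_erase_of_mem hx] at h4
    have : 0 < D.card := card_pos.mpr ⟨x, hx⟩
    omega

theorem isTop_insert {A : Finset ℕ} {j : ℕ} {f : ℕ → ℕ} {D : Finset ℕ} (h : IsTop A j f D)
    (hf : f ∈ Inj A) {c : ℕ} (hc : c ∈ A) (hcD : c ∉ D)
    (hmax : ∀ b ∈ A, b ∉ D → f b ≤ f c) : IsTop A (j + 1) f (insert c D) := by
  obtain ⟨h1, h2, h3⟩ := h
  refine ⟨insert_subset hc h1, by rw [card_insert_of_notMem hcD, h2], ?_⟩
  intro d hd x hx hxD
  rw [mem_insert, not_or] at hxD
  rcases mem_insert.mp hd with rfl | hd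
  · exact lt_of_le_of_ne (hmax x hx hxD.2) (fun h => hxD.1 (hf hx hc h))
  · exact h3 d hd x hx hxD.2

theorem champion {A : Finset ℕ} {t : T} (ht : ∀ a, a ∈ t.list ↔ a ∈ A) {j : ℕ}
    (hj : j < A.card) {P : Set (ℕ → ℕ)} (hP : P ⊆ Inj A) {D : Finset ℕ} (hK : t.K P D)
    (hD : ∀ f ∈ P, IsTop A j f D) : ∃ D', (∃ c, D' = insert c D) ∧
      ∀ f ∈ P, IsTop A (j + 1) f D' := by
  by_cases hne : ∃ f0, f0 ∈ P
  · obtain ⟨f0, hf0⟩ := hne
    cases hm : t.mx D f0 with
    | none =>
      exfalso
      have h1 := T.mx_none t hm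
      have h2 : A ⊆ D := fun a ha => h1 a ((ht a).mpr ha)
      have := card_le_card h2
      have := (hD f0 hf0).2.1
      omega
    | some c =>
      refine ⟨insert c D, ⟨c, rfl⟩, ?_⟩
      intro f hf
      have h1 : t.mx D f = some c := by rw [T.K_const hK f hf f0 hf0, hm]
      obtain ⟨h2, h3, h4⟩ := T.mx_some t c h1
      exact isTop_insert (hD f hf) (hP hf) ((ht c).mp h2) h3
        (fun b hb hbD => h4 b ((ht b).mpr hb) hbD)
  · push Not at hne
    exact ⟨insert 0 D, ⟨0, rfl⟩, fun f hf => absurd hf (hne f)⟩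

theorem rounds {A : Finset ℕ} (hA : A.Nonempty) {t : T} (ht : ∀ a, a ∈ t.list ↔ a ∈ A)
    (hnd : t.list.Nodup) : ∀ j, j < A.card →
      Can A (fun P => P ⊆ Inj A ∧ ∃ D, t.K P D ∧ ∀ f ∈ P, IsTop A j f D)
        (t.list.length - 1 + j * t.height) (Inj A) := by
  intro j
  induction j with
  | zero =>
    intro _
    rw [Nat.zero_mul, Nat.add_zero]
    have h1 := can_and (R := fun P => P ⊆ Inj A) (fun P P' h h1 => h.trans h1) _ (Inj A)
      subset_rfl (build hA t (fun a ha => (ht a).mp ha) (Inj A))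
    refine can_mono_Q ?_ _ _ h1
    rintro P ⟨h2, h3⟩
    refine ⟨h3, ∅, h2, fun f _ => ⟨empty_subset _, by simp, by simp⟩⟩
  | succ j ih =>
    intro hj
    have e : t.list.length - 1 + (j + 1) * t.height
        = (t.list.length - 1 + j * t.height) + t.height := by ring
    rw [e]
    refine can_seq ?_ _ _ (ih (by omega))
    rintro P ⟨hP, D, hK, hD⟩
    obtain ⟨D', ⟨c, hc⟩, hD'⟩ := champion ht (by omega) hP hK hD
    have h1 := update hA c D t (fun a ha => (ht a).mp ha) hnd P hK
    have h2 := can_and (R := fun P' => P' ⊆ Inj A ∧ ∀ f ∈ P', IsTop A (j + 1) f D')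
      (fun P1 P2 h h1 => ⟨h.trans h1.1, fun f hf => h1.2 f (h hf)⟩) _ P ⟨hP, hD'⟩ h1
    refine can_mono_Q ?_ _ _ h2
    rintro P2 ⟨h3, h4, h5⟩
    refine ⟨h4, D', ?_, h5⟩
    rw [hc]; exact h3

theorem balanced : ∀ (n : ℕ) (l : List ℕ), l.length = n → 1 ≤ n →
    ∃ t : T, t.list = l ∧ t.height ≤ Nat.clog 2 n := by
  intro n
  induction n using Nat.strong_induction_on with
  | _ n ih =>
    intro l hl hn
    by_cases h1 : n = 1
    · subst h1
      obtain ⟨a, rfl⟩ := List.length_eq_one_iff.mp hl
      exact ⟨T.leaf a, rfl, by simp [T.height]⟩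
    · have h2 : 2 ≤ n := by omega
      obtain ⟨t1, e1, g1⟩ := ih ((n + 1) / 2) (by omega) (l.take ((n + 1) / 2))
        (by rw [List.length_take]; omega) (by omega)
      obtain ⟨t2, e2, g2⟩ := ih (n - (n + 1) / 2) (by omega) (l.drop ((n + 1) / 2))
        (by rw [List.length_drop]; omega) (by omega)
      refine ⟨T.node t1 t2, ?_, ?_⟩
      · simp only [T.list, e1, e2, List.take_append_drop]
      · have h3 : Nat.clog 2 n = Nat.clog 2 ((n + 1) / 2) + 1 := by
          rw [Nat.clog_of_two_le (by norm_num) h2]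
          have e : n + 2 - 1 = n + 1 := by omega
          rw [e]
        have h4 : Nat.clog 2 (n - (n + 1) / 2) ≤ Nat.clog 2 ((n + 1) / 2) :=
          Nat.clog_mono_right 2 (by omega)
        simp only [T.height]
        omega

theorem V_upper {A : Finset ℕ} {t : ℕ} (h1 : 1 ≤ t) (h2 : t ≤ A.card) :
    V A t (A.card - 1 + (t - 1) * Nat.clog 2 A.card) := by
  classical
  have hA : A.Nonempty := card_pos.mp (by omega)
  obtain ⟨s, rfl⟩ : ∃ s, t = s + 1 := ⟨t - 1, by omega⟩
  obtain ⟨T0, hT, hh⟩ := balanced A.card A.toList (by simp) (by omega)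
  have ht : ∀ a, a ∈ T0.list ↔ a ∈ A := by intro a; rw [hT]; simp
  have hnd : T0.list.Nodup := by rw [hT]; exact A.nodup_toList
  have h3 := rounds hA ht hnd s (by omega)
  have h4 : V A (s + 1) (T0.list.length - 1 + s * T0.height) := by
    refine can_mono_Q ?_ _ _ h3
    rintro P ⟨hP, D, hK, hD⟩
    obtain ⟨D', _, hD'⟩ := champion ht (by omega) hP hK hD
    intro f hf g hg
    rw [top_of_isTop (hD' f hf), top_of_isTop (hD' g hg)]
  refine V_le hA ?_ h4
  rw [hT]
  simp only [length_toList, Nat.add_sub_cancel]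
  have := Nat.mul_le_mul_left s hh
  omega

end Pool.Sel63c848
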