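import Mathlib
import Pool.Agent.Lib.MP_63c848_lc.Upper

set_option autoImplicit false

namespace Pool.Sel63c848

open Finset

theorem V_exists (A : Finset ℕ) (t : ℕ) : ∃ k, V A t k := by
  classical
  by_cases h0 : t = 0
  · subst h0
    refine ⟨0, fun f _ g _ => ?_⟩
    simp [top]
  by_cases h1 : t ≤ A.card
  · exact ⟨_, V_upper (by omega) h1⟩
  · refine ⟨0, fun f _ g _ => ?_⟩
    have : ∀ f : ℕ → ℕ, top A t f = A := by
      intro f
      apply Finset.filter_true_of_mem
      intro x _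
      exact lt_of_le_of_lt (card_le_card (filter_subset _ _)) (by omega)
    rw [this, this]

theorem V_u (A : Finset ℕ) (t : ℕ) : V A t (u A.card t) := by
  have h1 : ({k | V (range A.card) t k} : Set ℕ).Nonempty := by
    obtain ⟨k, hk⟩ := V_exists A t
    exact ⟨k, V_card (by simp) hk⟩
  have h2 : V (range A.card) t (u A.card t) := Nat.sInf_mem h1
  exact V_card (by simp) h2

theorem u_le {A : Finset ℕ} {t k : ℕ} (h : V A t k) : u A.card t ≤ k :=
  Nat.sInf_le (V_card (by simp) h)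

theorem u_le' {A : Finset ℕ} {n t k : ℕ} (hn : A.card = n) (h : V A t k) : u n t ≤ k := by
  rw [← hn]; exact u_le h

theorem V_range (n t : ℕ) : V (range (n + 1)) t (u (n + 1) t) := by
  have h := V_u (range (n + 1)) t
  rwa [card_range] at h

/-- one more element which is declared to be the smallest -/
theorem u_succ_left {n t : ℕ} (h1 : 1 ≤ t) (h2 : t ≤ n) : u n t + 1 ≤ u (n + 1) t := by
  obtain ⟨j, hj, w, hw, h3⟩ := V_pred_min (A := range (n + 1)) h1 (by simp; omega) _
    (V_range n t)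
  have := u_le' (n := n) (by rw [card_erase_of_mem hw]; simp) h3
  omega

/-- one more element which is declared to be the largest -/
theorem u_succ_diag {n t : ℕ} (h2 : t < n) : u n t + 1 ≤ u (n + 1) (t + 1) := by
  obtain ⟨j, hj, w, hw, h3⟩ := V_pred_max (A := range (n + 1)) (t := t) (by simp; omega) _
    (V_range n (t + 1))
  have := u_le' (n := n) (by rw [card_erase_of_mem hw]; simp) h3
  omega

/-- THE RECURSION -/
theorem u_rec {n t : ℕ} (hn : 2 ≤ n) (h2 : t < n) :
    min (u n t) (u n (t + 1)) + 2 ≤ u (n + 1) (t + 1) := by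
  have h0 := V_range n (t + 1)
  have h1 : Can (range (n + 1)) (Const (range (n + 1)) (t + 1)) (u (n + 1) (t + 1))
      {f | f ∈ Inj (range (n + 1)) ∧ f ∈ PL []} :=
    can_mono_set (const_anti _ _) _ _ _ (fun f hf => hf.1) h0
  rcases key (A := range (n + 1)) (t := t) (by simp; omega) (by simp; omega) _ []
    (pairs_nil _) h1 with ⟨w, hw, j, h3, h4⟩ | ⟨w, hw, j, h3, h4⟩
  · have := u_le' (n := n) (by rw [card_erase_of_mem hw]; simp) h3
    simp only [List.length_nil] at h4
    have := min_le_left (u n t) (u n (t + 1))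
    omega
  · have := u_le' (n := n) (by rw [card_erase_of_mem hw]; simp) h3
    simp only [List.length_nil] at h4
    have := min_le_right (u n t) (u n (t + 1))
    omega

theorem u_upper {n t : ℕ} (h1 : 1 ≤ t) (h2 : t ≤ n) :
    u n t ≤ n - 1 + (t - 1) * Nat.clog 2 n := by
  have := V_upper (A := range n) h1 (by simpa using h2)
  rw [card_range] at this
  exact u_le' (by simp) this

theorem u_lower {n t : ℕ} (h1 : 1 ≤ t) (h2 : t < n) : n ≤ u n t + 1 := by
  obtain ⟨m, rfl⟩ : ∃ m, n = m + 1 := ⟨n - 1, by omega⟩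
  have := V_lower m (A := range (m + 1)) (by simp) h1 (by simpa using h2) (V_range m t)
  omega

/-! ### symmetry -/

theorem exists_isTop {A : Finset ℕ} {f : ℕ → ℕ} (hf : f ∈ Inj A) :
    ∀ j, j ≤ A.card → ∃ D, IsTop A j f D := by
  classical
  intro j
  induction j with
  | zero => intro _; exact ⟨∅, empty_subset _, by simp, by simp⟩
  | succ j ih =>
    intro hj
    obtain ⟨D, hD⟩ := ih (by omega)
    have hne : (A \ D).Nonempty := by
      rw [← card_pos, card_sdiff_of_subset hD.1, hD.2.1]; omega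
    obtain ⟨c, hc, hmax⟩ := exists_max_image (A \ D) f hne
    rw [mem_sdiff] at hc
    exact ⟨insert c D, isTop_insert hD hf hc.1 hc.2
      (fun b hb hbD => hmax b (mem_sdiff.mpr ⟨hb, hbD⟩))⟩

/-- reversed scores -/
def rev (A : Finset ℕ) (f : ℕ → ℕ) : ℕ → ℕ := fun x => A.sup f - f x

theorem rev_lt {A : Finset ℕ} {f : ℕ → ℕ} {x y : ℕ} (hx : x ∈ A) (hy : y ∈ A) :
    rev A f x < rev A f y ↔ f y < f x := by
  have h1 : f x ≤ A.sup f := le_sup (f := f) hx
  have h2 : f y ≤ A.sup f := le_sup (f := f) hy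
  unfold rev
  omega

theorem rev_mem_Inj {A : Finset ℕ} {f : ℕ → ℕ} (hf : f ∈ Inj A) : rev A f ∈ Inj A := by
  intro x hx y hy hxy
  have h1 : f x ≤ A.sup f := le_sup (f := f) hx
  have h2 : f y ≤ A.sup f := le_sup (f := f) hy
  unfold rev at hxy
  exact hf hx hy (by omega)

theorem top_rev {A : Finset ℕ} {f : ℕ → ℕ} (hf : f ∈ Inj A) {t : ℕ} (ht : t ≤ A.card) :
    top A t (rev A f) = A \ top A (A.card - t) f := by
  classical
  obtain ⟨D, hD⟩ := exists_isTop hf (A.card - t) (by omega)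
  rw [top_of_isTop hD]
  apply top_of_isTop
  obtain ⟨h1, h2, h3⟩ := hD
  refine ⟨sdiff_subset, by rw [card_sdiff_of_subset h1, h2]; omega, ?_⟩
  intro d hd x hx hxD
  rw [mem_sdiff] at hd
  have hx' : x ∈ D := by
    by_contra h
    exact hxD (mem_sdiff.mpr ⟨hx, h⟩)
  rw [rev_lt hx hd.1]
  exact h3 x hx' d hd.1 hd.2

theorem top_subset (A : Finset ℕ) (t : ℕ) (f : ℕ → ℕ) : top A t f ⊆ A := filter_subset _ _

theorem can_rev {A : Finset ℕ} {t : ℕ} (ht : t ≤ A.card) :
    ∀ (k : ℕ) (P : Set (ℕ → ℕ)), Can A (Const A t) k P →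
      Can A (Const A (A.card - t)) k {f | f ∈ Inj A ∧ rev A f ∈ P} := by
  classical
  intro k
  induction k with
  | zero =>
    rintro P h f ⟨hf, hf'⟩ g ⟨hg, hg'⟩
    have h1 := h _ hf' _ hg'
    rw [top_rev hf ht, top_rev hg ht] at h1
    have h2 : A \ (A \ top A (A.card - t) f) = A \ (A \ top A (A.card - t) g) := by rw [h1]
    rwa [Finset.sdiff_sdiff_eq_self (top_subset _ _ _),
      Finset.sdiff_sdiff_eq_self (top_subset _ _ _)] at h2
  | succ k ih =>
    rintro P ⟨x, hx, y, hy, h1, h2⟩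
    refine ⟨y, hy, x, hx, can_mono_set (const_anti _ _) k _ _ ?_ (ih _ h1),
      can_mono_set (const_anti _ _) k _ _ ?_ (ih _ h2)⟩
    · rintro f ⟨⟨hf, hf'⟩, h3⟩
      exact ⟨hf, hf', (rev_lt hx hy).mpr h3⟩
    · rintro f ⟨⟨hf, hf'⟩, h3⟩
      exact ⟨hf, hf', fun h => h3 ((rev_lt hx hy).mp h)⟩

theorem V_symm {A : Finset ℕ} {t k : ℕ} (ht : t ≤ A.card) (h : V A t k) :
    V A (A.card - t) k := by
  refine can_mono_set (const_anti _ _) k _ _ ?_ (can_rev ht k _ h)
  intro f hf
  exact ⟨hf, rev_mem_Inj hf⟩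

theorem u_symm {n t : ℕ} (hn : 1 ≤ n) (ht : t ≤ n) : u n (n - t) = u n t := by
  obtain ⟨m, rfl⟩ : ∃ m, n = m + 1 := ⟨n - 1, by omega⟩
  apply le_antisymm
  · have h1 := V_symm (A := range (m + 1)) (by simpa using ht) (V_range m t)
    rw [card_range] at h1
    exact u_le' (by simp) h1
  · have h1 := V_symm (A := range (m + 1)) (t := m + 1 - t) (by simp)
      (V_range m (m + 1 - t))
    rw [card_range] at h1
    have h2 : m + 1 - (m + 1 - t) = t := by omega
    rw [h2] at h1
    exact u_le' (by simp) h1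

end Pool.Sel63c848
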