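import Mathlib
import Pool.Agent.Lib.MP_63c848_lc.Func

set_option autoImplicit false

namespace Pool.Sel63c848

open Finset

/-- window lemma: following the recursion down to row `s` -/
theorem window {s : ℕ} (hs : 1 ≤ s) : ∀ (n t : ℕ), s < t → 2 * t ≤ n →
    ∃ m, t - s ≤ m ∧ m ≤ n - 2 * s ∧ u (n - m) s + 2 * m ≤ u n t := by
  intro n
  induction n with
  | zero => intro t h1 h2; omega
  | succ n ih =>
    intro t h1 h2
    obtain ⟨t, rfl⟩ : ∃ t', t = t' + 1 := ⟨t - 1, by omega⟩
    have hrec := u_rec (n := n) (t := t) (by omega) (by omega)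
    have case1 : u n t + 2 ≤ u (n + 1) (t + 1) →
        ∃ m, t + 1 - s ≤ m ∧ m ≤ n + 1 - 2 * s ∧ u (n + 1 - m) s + 2 * m ≤ u (n + 1) (t + 1) := by
      intro h3
      by_cases hts : t = s
      · subst hts
        exact ⟨1, by omega, by omega, by simpa using h3⟩
      · obtain ⟨m, m1, m2, m3⟩ := ih t (by omega) (by omega)
        refine ⟨m + 1, by omega, by omega, ?_⟩
        have e : n + 1 - (m + 1) = n - m := by omega
        rw [e]; omega
    by_cases hmin : u n t ≤ u n (t + 1)
    · rw [min_eq_left hmin] at hrec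
      exact case1 hrec
    · rw [min_eq_right (by omega)] at hrec
      by_cases h4 : 2 * (t + 1) ≤ n
      · obtain ⟨m, m1, m2, m3⟩ := ih (t + 1) h1 h4
        refine ⟨m + 1, by omega, by omega, ?_⟩
        have e : n + 1 - (m + 1) = n - m := by omega
        rw [e]; omega
      · have e : n = 2 * t + 1 := by omega
        have h5 := u_symm (n := n) (t := t) (by omega) (by omega)
        have e2 : n - t = t + 1 := by omega
        rw [e2] at h5
        exact case1 (by omega)

theorem u_diag_iter {n s : ℕ} (h : s < n) : ∀ d, u n s + d ≤ u (n + d) (s + d) := by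
  intro d
  induction d with
  | zero => simp
  | succ d ih =>
    have := u_succ_diag (n := n + d) (t := s + d) (by omega)
    show u n s + (d + 1) ≤ u (n + d + 1) (s + d + 1)
    omega

theorem u_mid : ∀ r, 1 ≤ r → 3 * r ≤ u (2 * r) r + 2 := by
  intro r
  induction r with
  | zero => intro h; omega
  | succ r ih =>
    intro _
    by_cases hr : r = 0
    · subst hr
      have := u_lower (n := 2) (t := 1) le_rfl (by norm_num)
      simp only [Nat.zero_add, Nat.mul_one]
      omega
    · have h1 := ih (by omega)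
      have h2 := u_rec (n := 2 * r + 1) (t := r) (by omega) (by omega)
      have h3 := u_symm (n := 2 * r + 1) (t := r) (by omega) (by omega)
      have e2 : 2 * r + 1 - r = r + 1 := by omega
      rw [e2] at h3
      rw [h3, min_self] at h2
      have h4 := u_succ_left (n := 2 * r) (t := r) (by omega) (by omega)
      have e3 : 2 * (r + 1) = 2 * r + 1 + 1 := by ring
      rw [e3]
      omega

/-- excess of row `r` -/
noncomputable def ex (r n : ℕ) : ℤ := (u n r : ℤ) - n

theorem ex_mono {r : ℕ} (hr : 1 ≤ r) {n m : ℕ} (h1 : r ≤ n) (h2 : n ≤ m) : ex r n ≤ ex r m := by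
  induction h2 with
  | refl => exact le_rfl
  | step h ih =>
    rename_i m
    have h3 : u m r + 1 ≤ u (m + 1) r := u_succ_left (n := m) (t := r) hr (le_trans h1 h)
    have h4 : (u m r : ℤ) + 1 ≤ u (m + 1) r := by exact_mod_cast h3
    unfold ex at *
    push_cast
    linarith

theorem ex_total {r : ℕ} (hr : 1 ≤ r) {b : ℕ} (hb : 2 * r ≤ b) :
    ex r b - ex r (2 * r) ≤ ((r : ℤ) - 1) * ((Nat.clog 2 b : ℤ) - 1) := by
  have h1 := u_upper (n := b) (t := r) hr (by omega)
  have h2 := u_mid r hr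
  unfold ex
  obtain ⟨s, rfl⟩ : ∃ s, r = s + 1 := ⟨r - 1, by omega⟩
  obtain ⟨b', rfl⟩ : ∃ b', b = b' + 1 := ⟨b - 1, by omega⟩
  simp only [Nat.add_sub_cancel] at h1
  have h1' : (u (b' + 1) (s + 1) : ℤ) ≤ b' + s * (Nat.clog 2 (b' + 1) : ℤ) := by
    exact_mod_cast h1
  have h2' : (3 : ℤ) * (s + 1) ≤ u (2 * (s + 1)) (s + 1) + 2 := by exact_mod_cast h2
  push_cast
  nlinarith

/-! ### a discrete maximal inequality -/

/-- queue length -/
def qu (e : ℕ → ℤ) (a : ℕ) : ℕ → ℤ
  | 0 => 0
  | i + 1 => max 0 (qu e a i + 2 * (e (a + i + 1) - e (a + i)) - 1)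

theorem qu_nonneg (e : ℕ → ℤ) (a i : ℕ) : 0 ≤ qu e a i := by
  cases i with
  | zero => exact le_rfl
  | succ i => exact le_max_left _ _

theorem qu_ge (e : ℕ → ℤ) (a : ℕ) : ∀ i l, l ≤ i →
    2 * (e (a + i) - e (a + l)) - (i - l : ℤ) ≤ qu e a i := by
  intro i
  induction i with
  | zero => intro l hl; obtain rfl : l = 0 := by omega
            simp [qu]
  | succ i ih =>
    intro l hl
    by_cases h : l = i + 1
    · subst h
      have := qu_nonneg e a (i + 1)
      simpa using this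
    · have h1 := ih l (by omega)
      have h2 : qu e a i + 2 * (e (a + i + 1) - e (a + i)) - 1 ≤ qu e a (i + 1) :=
        le_max_right _ _
      have e1 : a + (i + 1) = a + i + 1 := by ring
      rw [e1]
      push_cast
      linarith

open Classical in
theorem left_count (e : ℕ → ℤ) (a : ℕ) (i : ℕ)
    (hmono : ∀ j, j < i → e (a + j) ≤ e (a + j + 1)) :
    (((range (i + 1)).filter (fun j : ℕ => ∃ m : ℕ, 1 ≤ m ∧ m ≤ j ∧
      (m : ℤ) ≤ 2 * (e (a + j) - e (a + j - m)))).card : ℤ) + qu e a i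
      ≤ 2 * (e (a + i) - e a) := by
  induction i with
  | zero =>
    have : (range (0 + 1)).filter (fun j : ℕ => ∃ m : ℕ, 1 ≤ m ∧ m ≤ j ∧
      (m : ℤ) ≤ 2 * (e (a + j) - e (a + j - m))) = ∅ := by
      apply Finset.filter_eq_empty_iff.mpr
      intro j hj
      rw [mem_range] at hj
      rintro ⟨m, h1, h2, _⟩
      omega
    rw [this]
    simp [qu]
  | succ i ih =>
    have ih' := ih (fun j hj => hmono j (by omega))
    have hstep := hmono i (by omega)
    rw [range_add_one, filter_insert]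
    have e1 : a + (i + 1) = a + i + 1 := by ring
    by_cases h : ∃ m : ℕ, 1 ≤ m ∧ m ≤ i + 1 ∧
      (m : ℤ) ≤ 2 * (e (a + (i + 1)) - e (a + (i + 1) - m))
    · rw [if_pos h, card_insert_of_notMem (by simp)]
      obtain ⟨m, h1, h2, h3⟩ := h
      have h4 := qu_ge e a i (i + 1 - m) (by omega)
      have e2 : a + (i + 1) - m = a + (i + 1 - m) := by omega
      rw [e2, e1] at h3
      have h5 : ((i + 1 - m : ℕ) : ℤ) = (i : ℤ) + 1 - m := by omega
      rw [h5] at h4
      have h6 : 0 ≤ qu e a i + 2 * (e (a + i + 1) - e (a + i)) - 1 := by linarith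
      have h7 : qu e a (i + 1) = qu e a i + 2 * (e (a + i + 1) - e (a + i)) - 1 :=
        max_eq_right h6
      rw [h7, e1]
      push_cast
      linarith
    · rw [if_neg h, e1]
      have h6 : qu e a (i + 1) ≤ qu e a i + 2 * (e (a + i + 1) - e (a + i)) := by
        apply max_le
        · have := qu_nonneg e a i; linarith
        · linarith
      linarith

open Classical in
/-- one-sided maximal inequality -/
theorem left_max (e : ℕ → ℤ) (a b : ℕ) (hab : a ≤ b)
    (hmono : ∀ x, a ≤ x → x < b → e x ≤ e (x + 1)) :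
    (((Icc a b).filter (fun n : ℕ => ∃ m : ℕ, 1 ≤ m ∧ a + m ≤ n ∧
      (m : ℤ) ≤ 2 * (e n - e (n - m)))).card : ℤ) ≤ 2 * (e b - e a) := by
  have h := left_count e a (b - a) (fun j hj => hmono (a + j) (by omega) (by omega))
  have h2 := qu_nonneg e a (b - a)
  have e1 : a + (b - a) = b := by omega
  rw [e1] at h
  refine le_trans ?_ (by linarith : ((((range (b - a + 1)).filter (fun j : ℕ => ∃ m : ℕ, 1 ≤ m ∧ m ≤ j ∧
      (m : ℤ) ≤ 2 * (e (a + j) - e (a + j - m)))).card : ℤ)) ≤ 2 * (e b - e a))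
  rw [Nat.cast_le]
  apply Finset.card_le_card_of_injOn (fun n => n - a)
  · intro n hn
    simp only [coe_filter, mem_Icc, Set.mem_ofPred_eq] at hn
    obtain ⟨⟨h3, h4⟩, m, m1, m2, m3⟩ := hn
    simp only [coe_filter, mem_range, Set.mem_ofPred_eq]
    refine ⟨by omega, m, m1, by omega, ?_⟩
    have e2 : a + (n - a) = n := by omega
    rw [e2]; exact m3
  · intro x hx y hy hxy
    simp only [coe_filter, mem_Icc, Set.mem_ofPred_eq] at hx hy
    have := hx.1.1
    have := hy.1.1
    simp only at hxy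
    omega

open Classical in
/-- two-sided maximal inequality -/
theorem two_max (e : ℕ → ℤ) (a b : ℕ) (hab : a ≤ b)
    (hmono : ∀ x, a ≤ x → x < b → e x ≤ e (x + 1)) :
    (((Icc a b).filter (fun n : ℕ => ∃ m d : ℕ, d < m ∧ a + m ≤ n ∧ n + d ≤ b ∧
      (m : ℤ) ≤ e (n + d) - e (n - m))).card : ℤ) ≤ 4 * (e b - e a) := by
  have hL := left_max e a b hab hmono
  let e' : ℕ → ℤ := fun x => - e (a + b - x)
  have hR := left_max e' a b hab (by
    intro x hx hxb
    have h1 := hmono (a + b - (x + 1)) (by omega) (by omega)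
    have e1 : a + b - (x + 1) + 1 = a + b - x := by omega
    rw [e1] at h1
    simp only [e']
    linarith)
  have e2 : e' b - e' a = e b - e a := by
    have h1 : a + b - b = a := by omega
    have h2 : a + b - a = b := by omega
    simp only [e', h1, h2]; ring
  rw [e2] at hR
  have hsub : (Icc a b).filter (fun n : ℕ => ∃ m d : ℕ, d < m ∧ a + m ≤ n ∧ n + d ≤ b ∧
      (m : ℤ) ≤ e (n + d) - e (n - m)) ⊆
      (Icc a b).filter (fun n : ℕ => ∃ m : ℕ, 1 ≤ m ∧ a + m ≤ n ∧
        (m : ℤ) ≤ 2 * (e n - e (n - m))) ∪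
      ((Icc a b).filter (fun n : ℕ => ∃ m : ℕ, 1 ≤ m ∧ a + m ≤ n ∧
        (m : ℤ) ≤ 2 * (e' n - e' (n - m)))).image (fun n => a + b - n) := by
    intro n hn
    rw [mem_filter, mem_Icc] at hn
    obtain ⟨⟨h3, h4⟩, m, d, m1, m2, m3, m4⟩ := hn
    rw [mem_union]
    by_cases h5 : (m : ℤ) ≤ 2 * (e n - e (n - m))
    · left
      rw [mem_filter, mem_Icc]
      exact ⟨⟨h3, h4⟩, m, by omega, m2, h5⟩
    · right
      rw [mem_image]
      refine ⟨a + b - n, ?_, by omega⟩
      rw [mem_filter, mem_Icc]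
      have hd : d ≠ 0 := by
        rintro rfl
        rw [Nat.add_zero] at m4
        apply h5
        have : (0 : ℤ) ≤ m := by positivity
        linarith
      refine ⟨⟨by omega, by omega⟩, d, by omega, by omega, ?_⟩
      have h6 : a + b - (a + b - n) = n := by omega
      have h7 : a + b - (a + b - n - d) = n + d := by omega
      simp only [e', h6, h7]
      have h8 : (d : ℤ) < m := by exact_mod_cast m1
      push Not at h5
      linarith
  have h9 := Finset.card_le_card hsub
  have h10 := Finset.card_union_le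
    ((Icc a b).filter (fun n : ℕ => ∃ m : ℕ, 1 ≤ m ∧ a + m ≤ n ∧
        (m : ℤ) ≤ 2 * (e n - e (n - m))))
    (((Icc a b).filter (fun n : ℕ => ∃ m : ℕ, 1 ≤ m ∧ a + m ≤ n ∧
        (m : ℤ) ≤ 2 * (e' n - e' (n - m)))).image (fun n => a + b - n))
  have h11 := Finset.card_image_le (s := (Icc a b).filter (fun n : ℕ => ∃ m : ℕ, 1 ≤ m ∧ a + m ≤ n ∧
        (m : ℤ) ≤ 2 * (e' n - e' (n - m)))) (f := fun n => a + b - n)
  have h12 : (((Icc a b).filter (fun n : ℕ => ∃ m d : ℕ, d < m ∧ a + m ≤ n ∧ n + d ≤ b ∧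
      (m : ℤ) ≤ e (n + d) - e (n - m))).card : ℤ) ≤
      (((Icc a b).filter (fun n : ℕ => ∃ m : ℕ, 1 ≤ m ∧ a + m ≤ n ∧
        (m : ℤ) ≤ 2 * (e n - e (n - m)))).card : ℤ) +
      (((Icc a b).filter (fun n : ℕ => ∃ m : ℕ, 1 ≤ m ∧ a + m ≤ n ∧
        (m : ℤ) ≤ 2 * (e' n - e' (n - m)))).card : ℤ) := by
    exact_mod_cast le_trans h9 (le_trans h10 (by omega))
  linarith

end Pool.Sel63c848
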