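import Mathlib
import Pool.Agent.Lib.MP_63c848_lc.Func

set_option autoImplicit false

namespace Pool.Sel63c848

open Finset

/-- `k` queries in the sense of the frozen statement suffice -/
def Works (n t k : ℕ) : Prop := ∃ q : List Bool → Fin n × Fin n,
        ∀ σ τ : Equiv.Perm (Fin n), ∀ h : List Bool, h.length = k →
          (∀ i < k, h.getD i false = decide (σ (q (h.take i)).1 < σ (q (h.take i)).2)) →
          (∀ i < k, h.getD i false = decide (τ (q (h.take i)).1 < τ (q (h.take i)).2)) →
          Finset.univ.filter (fun x : Fin n => n - t ≤ ((σ x : Fin n) : ℕ)) =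
            Finset.univ.filter (fun x : Fin n => n - t ≤ ((τ x : Fin n) : ℕ))

/-- the transcript `h` is consistent with the answers `a` -/
def C {β : Type} (q : List Bool → β) (h : List Bool) (a : β → Bool) : Prop :=
  ∀ i < h.length, h.getD i false = a (q (h.take i))

theorem C_append {β : Type} (q : List Bool → β) (p : List Bool) (b : Bool) (a : β → Bool) :
    C q (p ++ [b]) a ↔ C q p a ∧ b = a (q p) := by
  constructor
  · intro h
    constructor
    · intro i hi
      have h1 := h i (by simp; omega)
      rw [List.getD_append _ _ _ _ hi, List.take_append_of_le_length hi.le] at h1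
      exact h1
    · have h1 := h p.length (by simp)
      rw [List.getD_append_right _ _ _ _ le_rfl] at h1
      simpa using h1
  · rintro ⟨h1, h2⟩ i hi
    by_cases h3 : i < p.length
    · rw [List.getD_append _ _ _ _ h3, List.take_append_of_le_length h3.le]
      exact h1 i h3
    · have h4 : i = p.length := by simp at hi; omega
      subst h4
      rw [List.getD_append_right _ _ _ _ le_rfl]
      simpa using h2

theorem C_cons {β : Type} (q : List Bool → β) (h : List Bool) (b : Bool) (a : β → Bool) :
    C q (b :: h) a ↔ b = a (q []) ∧ C (fun l => q (b :: l)) h a := by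
  constructor
  · intro h1
    constructor
    · have h2 := h1 0 (by simp)
      simpa using h2
    · intro i hi
      have h2 := h1 (i + 1) (by simp; omega)
      simpa using h2
  · rintro ⟨h1, h2⟩ i hi
    cases i with
    | zero => simpa using h1
    | succ i =>
      have h3 := h2 i (by simp at hi; omega)
      simpa using h3

/-- answers given by a score function -/
def ansF {n : ℕ} (f : ℕ → ℕ) : Fin n × Fin n → Bool := fun p => decide (f p.1 < f p.2)

/-- answers given by a permutation -/
def ansP {n : ℕ} (σ : Equiv.Perm (Fin n)) : Fin n × Fin n → Bool :=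
  fun p => decide (σ p.1 < σ p.2)

def Compat {n : ℕ} (f : ℕ → ℕ) (σ : Equiv.Perm (Fin n)) : Prop :=
  ∀ i j : Fin n, σ i < σ j ↔ f i < f j

theorem Compat.ans {n : ℕ} {f : ℕ → ℕ} {σ : Equiv.Perm (Fin n)} (h : Compat f σ) :
    ansP σ = ansF f := by
  funext p
  simp only [ansP, ansF, h p.1 p.2]

theorem Compat.top {n t : ℕ} {f : ℕ → ℕ} {σ : Equiv.Perm (Fin n)} (h : Compat f σ)
    (x : Fin n) : (x : ℕ) ∈ top (range n) t f ↔ n - t ≤ (σ x : ℕ) := by
  have h1 : ((range n).filter (fun y => f x < f y)).card = n - 1 - (σ x : ℕ) := by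
    rw [← Fin.card_Ioi (σ x)]
    symm
    apply Finset.card_bij (fun (z : Fin n) _ => ((σ.symm z : Fin n) : ℕ))
    · intro z hz
      rw [mem_Ioi] at hz
      rw [mem_filter, mem_range]
      refine ⟨(σ.symm z).2, ?_⟩
      rw [← h x (σ.symm z)]
      simpa using hz
    · intro a _ b _ hab
      exact σ.symm.injective (Fin.ext hab)
    · intro y hy
      rw [mem_filter, mem_range] at hy
      refine ⟨σ ⟨y, hy.1⟩, ?_, by simp⟩
      rw [mem_Ioi]
      exact (h x ⟨y, hy.1⟩).mpr hy.2
  have h2 : (σ x : ℕ) < n := (σ x).2
  unfold Pool.Sel63c848.top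
  rw [mem_filter, mem_range, h1]
  constructor
  · rintro ⟨_, h3⟩; omega
  · intro h3; exact ⟨x.2, by omega⟩

theorem Compat.const {n t : ℕ} {f g : ℕ → ℕ} {σ τ : Equiv.Perm (Fin n)} (hf : Compat f σ)
    (hg : Compat g τ) :
    (Finset.univ.filter (fun x : Fin n => n - t ≤ ((σ x : Fin n) : ℕ)) =
      Finset.univ.filter (fun x : Fin n => n - t ≤ ((τ x : Fin n) : ℕ))) ↔
    Pool.Sel63c848.top (range n) t f = Pool.Sel63c848.top (range n) t g := by
  constructor
  · intro h
    ext x
    by_cases hx : x < n
    · have h1 := Finset.ext_iff.mp h ⟨x, hx⟩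
      simp only [mem_filter, mem_univ, true_and] at h1
      rw [← hf.top ⟨x, hx⟩, ← hg.top ⟨x, hx⟩] at h1
      exact h1
    · constructor
      · intro h1
        exact absurd (mem_range.mp (top_subset _ _ _ h1)) hx
      · intro h1
        exact absurd (mem_range.mp (top_subset _ _ _ h1)) hx
  · intro h
    ext x
    simp only [mem_filter, mem_univ, true_and]
    rw [← hf.top x, ← hg.top x, h]

theorem exists_perm {n : ℕ} {f : ℕ → ℕ} (hf : f ∈ Inj (range n)) :
    ∃ σ : Equiv.Perm (Fin n), Compat f σ := by
  classical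
  let r : Fin n → Fin n := fun i =>
    ⟨((range n).filter (fun j => f j < f i)).card, by
      calc ((range n).filter (fun j => f j < f i)).card
          < (range n).card := by
            apply card_lt_card
            refine ⟨filter_subset _ _, fun h => ?_⟩
            have := h (mem_range.mpr i.2)
            rw [mem_filter] at this
            exact lt_irrefl _ this.2
        _ = n := card_range n⟩
  have hr : ∀ i j : Fin n, f i < f j → r i < r j := by
    intro i j hij
    show ((range n).filter (fun y => f y < f i)).card < ((range n).filter (fun y => f y < f j)).card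
    apply card_lt_card
    refine ⟨fun y hy => ?_, fun h => ?_⟩
    · rw [mem_filter] at hy ⊢
      exact ⟨hy.1, hy.2.trans hij⟩
    · have h1 : (i : ℕ) ∈ (range n).filter (fun y => f y < f j) :=
        mem_filter.mpr ⟨mem_range.mpr i.2, hij⟩
      have h2 := h h1
      rw [mem_filter] at h2
      exact lt_irrefl _ h2.2
  have hinj : Function.Injective r := by
    intro i j hij
    rcases Nat.lt_trichotomy (f i) (f j) with h | h | h
    · exact absurd hij (ne_of_lt (hr i j h))
    · exact Fin.ext (hf (by simp) (by simp) h)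
    · exact absurd hij (ne_of_gt (hr j i h))
  refine ⟨Equiv.ofBijective r (Finite.injective_iff_bijective.mp hinj), ?_⟩
  intro i j
  show r i < r j ↔ f i < f j
  constructor
  · intro h
    by_contra hc
    rcases lt_or_eq_of_le (not_lt.mp hc) with h1 | h1
    · exact lt_asymm h (hr j i h1)
    · have : j = i := Fin.ext (hf (by simp) (by simp) h1)
      subst this
      exact lt_irrefl _ h
  · exact hr i j

theorem exists_score {n : ℕ} (σ : Equiv.Perm (Fin n)) :
    ∃ f ∈ Inj (range n), Compat f σ := by
  refine ⟨fun i => if h : i < n then (σ ⟨i, h⟩ : ℕ) else 0, ?_, ?_⟩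
  · intro x hx y hy hxy
    have hx' : x < n := by simpa using hx
    have hy' : y < n := by simpa using hy
    simp only [hx', hy', dif_pos] at hxy
    have := σ.injective (Fin.ext hxy)
    exact congrArg Fin.val this
  · intro i j
    simp

theorem works_to_V {n t K : ℕ} (h : Works n t K) : V (range n) t K := by
  obtain ⟨q, hq⟩ := h
  have claim : ∀ (k : ℕ) (p : List Bool) (P : Set (ℕ → ℕ)), p.length + k = K →
      P ⊆ Inj (range n) → (∀ f ∈ P, C q p (ansF f)) →
      Can (range n) (Const (range n) t) k P := by
    intro k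
    induction k with
    | zero =>
      intro p P hp hP hC f hf g hg
      obtain ⟨σ, hσ⟩ := exists_perm (hP hf)
      obtain ⟨τ, hτ⟩ := exists_perm (hP hg)
      rw [← hσ.const hτ]
      have hp' : p.length = K := by omega
      apply hq σ τ p hp'
      · intro i hi
        have h1 := hC f hf i (by omega)
        rw [← hσ.ans] at h1
        exact h1
      · intro i hi
        have h1 := hC g hg i (by omega)
        rw [← hτ.ans] at h1
        exact h1
    | succ k ih =>
      intro p P hp hP hC
      refine ⟨(q p).1, by simp, (q p).2, by simp, ?_, ?_⟩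
      · refine ih (p ++ [true]) _ (by simp; omega) (fun f hf => hP hf.1) ?_
        rintro f ⟨hf, hf'⟩
        rw [C_append]
        exact ⟨hC f hf, by simp [ansF, hf']⟩
      · refine ih (p ++ [false]) _ (by simp; omega) (fun f hf => hP hf.1) ?_
        rintro f ⟨hf, hf'⟩
        rw [C_append]
        exact ⟨hC f hf, by simpa [ansF] using hf'⟩
  exact claim K [] (Inj (range n)) (by simp) subset_rfl (fun f _ i hi => absurd hi (by simp))

theorem V_to_works {n t K : ℕ} (hn : 1 ≤ n) (h : V (range n) t K) : Works n t K := by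
  have claim : ∀ (k : ℕ) (P : Set (ℕ → ℕ)), Can (range n) (Const (range n) t) k P →
      ∃ q : List Bool → Fin n × Fin n, ∀ h : List Bool, h.length = k → ∀ f ∈ P, ∀ g ∈ P,
        C q h (ansF f) → C q h (ansF g) → top (range n) t f = top (range n) t g := by
    intro k
    induction k with
    | zero =>
      intro P hP
      exact ⟨fun _ => (⟨0, hn⟩, ⟨0, hn⟩), fun h _ f hf g hg _ _ => hP f hf g hg⟩
    | succ k ih =>
      rintro P ⟨x, hx, y, hy, h1, h2⟩
      obtain ⟨q1, hq1⟩ := ih _ h1
      obtain ⟨q2, hq2⟩ := ih _ h2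
      let q : List Bool → Fin n × Fin n := fun l => match l with
        | [] => (⟨x, mem_range.mp hx⟩, ⟨y, mem_range.mp hy⟩)
        | true :: l => q1 l
        | false :: l => q2 l
      refine ⟨q, ?_⟩
      intro h hh f hf g hg hCf hCg
      obtain ⟨b, h', rfl⟩ : ∃ b h', h = b :: h' := by
        cases h with
        | nil => simp at hh
        | cons b h' => exact ⟨b, h', rfl⟩
      rw [C_cons] at hCf hCg
      obtain ⟨c1, c2⟩ := hCf
      obtain ⟨d1, d2⟩ := hCg
      have hh' : h'.length = k := by simpa using hh
      cases b with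
      | true =>
        have e1 : f x < f y := by simpa [ansF, q] using c1
        have e2 : g x < g y := by simpa [ansF, q] using d1
        exact hq1 h' hh' f ⟨hf, e1⟩ g ⟨hg, e2⟩ c2 d2
      | false =>
        have e1 : ¬ f x < f y := by simpa [ansF, q] using c1
        have e2 : ¬ g x < g y := by simpa [ansF, q] using d1
        exact hq2 h' hh' f ⟨hf, e1⟩ g ⟨hg, e2⟩ c2 d2
  obtain ⟨q, hq⟩ := claim K _ h
  refine ⟨q, ?_⟩
  intro σ τ h hh h1 h2
  obtain ⟨f, hf, hfσ⟩ := exists_score σ
  obtain ⟨g, hg, hgτ⟩ := exists_score τ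
  rw [hfσ.const hgτ]
  apply hq h hh f hf g hg
  · rw [← hfσ.ans]; intro i hi; exact h1 i (by omega)
  · rw [← hgτ.ans]; intro i hi; exact h2 i (by omega)

theorem U_eq {U : ℕ → ℕ → ℕ} (hU : ∀ n t : ℕ, U n t = sInf {k : ℕ | Works n t k}) {n : ℕ}
    (hn : 1 ≤ n) (t : ℕ) : U n t = u n t := by
  rw [hU, u]
  congr 1
  ext k
  exact ⟨works_to_V, V_to_works hn⟩

end Pool.Sel63c848
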