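import Mathlib
import Pool.Agent.Lib.MP_63c848_lc.Count
import Pool.Agent.Lib.MP_63c848_lc.Trans

set_option autoImplicit false

namespace Pool.Sel63c848

open Finset

open Classical in
/-- exceptional `n ≤ N` at resolution `w` in the range `t ≤ T` -/
noncomputable def Bad (N T w : ℕ) : Finset ℕ :=
  (Icc 1 N).filter (fun n : ℕ => ∃ s t : ℕ, 1 ≤ s ∧ s < t ∧ t ≤ T ∧ 2 * t ≤ n ∧
    2 * w ≤ t - s + 1 ∧ u n t ≤ u n s)

open Classical in
noncomputable def Row (b r : ℕ) : Finset ℕ :=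
  (Icc (2 * r) b).filter (fun n : ℕ => ∃ m d : ℕ, d < m ∧ 2 * r + m ≤ n ∧ n + d ≤ b ∧
      (m : ℤ) ≤ ex r (n + d) - ex r (n - m))

theorem row_card {b r : ℕ} (hr : 1 ≤ r) : (Row b r).card ≤ 4 * (r * Nat.clog 2 b) := by
  classical
  by_cases hb : 2 * r ≤ b
  · have h1 := two_max (ex r) (2 * r) b hb
      (fun x hx _ => ex_mono hr (by omega) (by omega))
    have h2 := ex_total hr hb
    have h3 : (((Row b r).card : ℕ) : ℤ) ≤ 4 * ((r : ℤ) * (Nat.clog 2 b : ℤ)) := by
      refine le_trans h1 ?_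
      have h4 : ((r : ℤ) - 1) * ((Nat.clog 2 b : ℤ) - 1) ≤ (r : ℤ) * (Nat.clog 2 b : ℤ) := by
        have : (1 : ℤ) ≤ r := by exact_mod_cast hr
        have : (0 : ℤ) ≤ (Nat.clog 2 b : ℤ) := by positivity
        nlinarith
      linarith
    exact_mod_cast h3
  · have : Row b r = ∅ := by
      unfold Row
      rw [Icc_eq_empty (by omega)]
      rfl
    rw [this]; simp

theorem bad_subset {N T w : ℕ} (hw : 1 ≤ w) :
    Bad N T w ⊆ (Icc 1 ((T - 1) / w)).biUnion (fun j => Row (N + w) (j * w)) := by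
  classical
  intro n hn
  unfold Bad at hn
  rw [mem_filter, mem_Icc] at hn
  obtain ⟨⟨hn1, hnN⟩, s, t, hs, hst, htT, htn, hw2, hlt⟩ := hn
  rw [mem_biUnion]
  obtain ⟨j, hj1, hj2, hj3⟩ : ∃ j, 1 ≤ j ∧ s ≤ j * w ∧ j * w < s + w := by
    refine ⟨(s + w - 1) / w, ?_, ?_, ?_⟩
    · exact (Nat.le_div_iff_mul_le hw).mpr (by omega)
    · have h1 := Nat.div_add_mod (s + w - 1) w
      have h2 := Nat.mod_lt (s + w - 1) hw
      rw [Nat.mul_comm] at h1
      omega
    · have h1 := Nat.div_mul_le_self (s + w - 1) w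
      omega
  refine ⟨j, ?_, ?_⟩
  · rw [mem_Icc]
    refine ⟨hj1, (Nat.le_div_iff_mul_le hw).mpr (by omega)⟩
  · have hr1 : 1 ≤ j * w := by omega
    have hrt : j * w < t := by omega
    obtain ⟨m, m1, m2, m3⟩ := window hr1 n t hrt htn
    have hd := u_diag_iter (n := n) (s := s) (by omega) (j * w - s)
    have e1 : s + (j * w - s) = j * w := by omega
    rw [e1] at hd
    unfold Row
    rw [mem_filter, mem_Icc]
    refine ⟨⟨by omega, by omega⟩, m, j * w - s, by omega, by omega, by omega, ?_⟩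
    unfold ex
    have h1 : ((n - m : ℕ) : ℤ) = (n : ℤ) - m := by omega
    have h2 : (u n s : ℤ) + ((j * w - s : ℕ) : ℤ) ≤ (u (n + (j * w - s)) (j * w) : ℤ) := by
      exact_mod_cast hd
    have h3 : (u (n - m) (j * w) : ℤ) + 2 * m ≤ (u n t : ℤ) := by exact_mod_cast m3
    have h4 : (u n t : ℤ) ≤ u n s := by exact_mod_cast hlt
    rw [h1]
    push_cast
    linarith

theorem bad_card {N T w : ℕ} (hw : 1 ≤ w) :
    w * (Bad N T w).card ≤ 2 * T * (T + w) * Nat.clog 2 (N + w) := by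
  classical
  set c := Nat.clog 2 (N + w) with hc
  set J := (T - 1) / w with hJ
  have h1 : (Bad N T w).card ≤ ∑ j ∈ Icc 1 J, 4 * (j * w * c) := by
    refine le_trans (card_le_card (bad_subset hw)) (le_trans card_biUnion_le ?_)
    refine sum_le_sum (fun j hj => ?_)
    rw [mem_Icc] at hj
    exact row_card (Nat.mul_pos hj.1 hw)
  have h2 : ∀ J : ℕ, ∑ j ∈ Icc 1 J, 4 * (j * w * c) = 2 * (J * (J + 1)) * w * c := by
    intro J
    induction J with
    | zero => simp
    | succ J ih =>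
      rw [sum_Icc_succ_top (by omega), ih]
      ring
  rw [h2] at h1
  have h3 : w * J ≤ T := by
    have := Nat.div_mul_le_self (T - 1) w
    rw [← hJ] at this
    rw [Nat.mul_comm]; omega
  calc w * (Bad N T w).card ≤ w * (2 * (J * (J + 1)) * w * c) := Nat.mul_le_mul_left _ h1
    _ = 2 * (w * J) * (w * J + w) * c := by ring
    _ ≤ 2 * T * (T + w) * c := by
      apply Nat.mul_le_mul_right
      apply Nat.mul_le_mul
      · exact Nat.mul_le_mul_left _ h3
      · omega

end Pool.Sel63c848
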