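import Mathlib
import Pool.Agent.Lib.MP_63c848_lc.Finite

set_option autoImplicit false

namespace Pool.Sel63c848

open Finset Filter Topology

theorem clog_le {m : ℕ} (hm : 1 ≤ m) {η : ℝ} (hη : 0 < η) :
    (Nat.clog 2 m : ℝ) ≤ (1 + 2 / η) * (m : ℝ) ^ η := by
  have hm' : (1 : ℝ) ≤ m := by exact_mod_cast hm
  have hpow : (1 : ℝ) ≤ (m : ℝ) ^ η := Real.one_le_rpow hm' hη.le
  by_cases h1 : m = 1
  · subst h1
    simp only [Nat.clog_one_right, Nat.cast_zero]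
    positivity
  · have h2 : 1 < m := by omega
    have h3 : 2 ^ (Nat.clog 2 m).pred < m := Nat.pow_pred_clog_lt_self (by norm_num) h2
    have h4 : ((Nat.clog 2 m).pred : ℝ) * Real.log 2 ≤ Real.log m := by
      rw [← Real.log_pow]
      apply Real.log_le_log (by positivity)
      exact_mod_cast h3.le
    have h5 : Real.log m ≤ (m : ℝ) ^ η / η := Real.log_le_rpow_div (by positivity) hη
    have h6 : (1 : ℝ) / 2 < Real.log 2 := by
      have := Real.log_two_gt_d9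
      linarith
    have h7 : (Nat.clog 2 m : ℝ) ≤ ((Nat.clog 2 m).pred : ℝ) + 1 := by
      have : Nat.clog 2 m ≤ (Nat.clog 2 m).pred + 1 := by
        simp only [Nat.pred_eq_sub_one]; omega
      exact_mod_cast this
    have h8 : (0 : ℝ) ≤ ((Nat.clog 2 m).pred : ℝ) := by positivity
    have h9 : ((Nat.clog 2 m).pred : ℝ) ≤ 2 * ((m : ℝ) ^ η / η) := by nlinarith
    calc (Nat.clog 2 m : ℝ) ≤ 2 * ((m : ℝ) ^ η / η) + 1 := by linarith
      _ ≤ 2 * ((m : ℝ) ^ η / η) + (m : ℝ) ^ η := by linarith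
      _ = (1 + 2 / η) * (m : ℝ) ^ η := by ring

/-- `n` is exceptional for the exponents `θ` (range) and `γ` (resolution) -/
def Exc (θ γ : ℝ) (n : ℕ) : Prop := ∃ s t : ℕ, 1 ≤ s ∧ s < t ∧ (t : ℝ) ≤ (n : ℝ) ^ θ ∧
  2 * t ≤ n ∧ (n : ℝ) ^ γ ≤ (t : ℝ) - s ∧ u n t ≤ u n s

/-- `n` is exceptional for the exponent `θ` -/
def Exc0 (θ : ℝ) (n : ℕ) : Prop := ∃ s t : ℕ, 1 ≤ s ∧ s < t ∧ (t : ℝ) ≤ (n : ℝ) ^ θ ∧
  2 * t ≤ n ∧ u n t ≤ u n s

open Classical in
/-- density zero -/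
def Zero (P : ℕ → Prop) : Prop :=
  Tendsto (fun N : ℕ => ((((Icc 1 N).filter P).card : ℕ) : ℝ) / N) atTop (𝓝 0)

theorem zero_mono {P Q : ℕ → Prop} (h : ∀ n, 1 ≤ n → P n → Q n) (hQ : Zero Q) : Zero P := by
  classical
  unfold Zero at *
  refine squeeze_zero (fun N => by positivity) (fun N => ?_) hQ
  apply div_le_div_of_nonneg_right _ (by positivity)
  rw [Nat.cast_le]
  apply card_le_card
  intro n hn
  rw [mem_filter, mem_Icc] at *
  exact ⟨hn.1, h n hn.1.1 hn.2⟩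

theorem tendsto_pow_neg {a : ℝ} (ha : 0 < a) :
    Tendsto (fun N : ℕ => (N : ℝ) ^ (-a)) atTop (𝓝 0) :=
  (tendsto_rpow_neg_atTop ha).comp tendsto_natCast_atTop_atTop

theorem exc0_zero {θ : ℝ} (h0 : 0 ≤ θ) (h1 : θ < 1 / 2) : Zero (Exc0 θ) := by
  classical
  set η : ℝ := (1 - 2 * θ) / 2 with hη
  have hηpos : 0 < η := by rw [hη]; linarith
  have hη1 : η ≤ 1 := by rw [hη]; linarith
  unfold Zero
  refine squeeze_zero' (g := fun N : ℕ => (8 * (1 + 2 / η)) * (N : ℝ) ^ (-η))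
    (Eventually.of_forall fun N => by positivity) ?_ ?_
  · filter_upwards [eventually_ge_atTop 1] with N hN
    have hN' : (1 : ℝ) ≤ N := by exact_mod_cast hN
    have hNpos : (0 : ℝ) < N := by linarith
    set T := ⌊(N : ℝ) ^ θ⌋₊ with hT
    have hTle : (T : ℝ) ≤ (N : ℝ) ^ θ := Nat.floor_le (by positivity)
    have hsub : (Icc 1 N).filter (Exc0 θ) ⊆ Bad N T 1 := by
      intro n hn
      rw [mem_filter, mem_Icc] at hn
      obtain ⟨⟨hn1, hnN⟩, s, t, hs, hst, ht, h2t, hlt⟩ := hn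
      unfold Bad
      rw [mem_filter, mem_Icc]
      refine ⟨⟨hn1, hnN⟩, s, t, hs, hst, ?_, h2t, by omega, hlt⟩
      apply Nat.le_floor
      refine ht.trans ?_
      exact Real.rpow_le_rpow (by positivity) (by exact_mod_cast hnN) h0
    have h2 := bad_card (N := N) (T := T) (w := 1) le_rfl
    have h3 : ((((Icc 1 N).filter (Exc0 θ)).card : ℕ) : ℝ)
        ≤ 2 * T * (T + 1) * (Nat.clog 2 (N + 1) : ℝ) := by
      have h4 := card_le_card hsub
      have h5 : ((Icc 1 N).filter (Exc0 θ)).card ≤ 2 * T * (T + 1) * Nat.clog 2 (N + 1) := by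
        omega
      exact_mod_cast h5
    have h6 : (T : ℝ) * (T + 1) ≤ 2 * (T : ℝ) ^ 2 := by
      by_cases hT0 : T = 0
      · rw [hT0]; norm_num
      · have : (1 : ℝ) ≤ T := by exact_mod_cast Nat.one_le_iff_ne_zero.mpr hT0
        nlinarith
    have h7 : (T : ℝ) ^ 2 ≤ (N : ℝ) ^ (2 * θ) := by
      have e : (N : ℝ) ^ (2 * θ) = ((N : ℝ) ^ θ) ^ 2 := by
        rw [← Real.rpow_natCast, ← Real.rpow_mul hNpos.le]
        congr 1
        push_cast; ring
      rw [e]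
      exact pow_le_pow_left₀ (by positivity) hTle 2
    have h8 : (Nat.clog 2 (N + 1) : ℝ) ≤ (1 + 2 / η) * (2 * (N : ℝ) ^ η) := by
      refine (clog_le (m := N + 1) (by omega) hηpos).trans ?_
      apply mul_le_mul_of_nonneg_left _ (by positivity)
      have h9 : ((N + 1 : ℕ) : ℝ) ≤ 2 * N := by push_cast; linarith
      calc ((N + 1 : ℕ) : ℝ) ^ η ≤ (2 * N : ℝ) ^ η :=
            Real.rpow_le_rpow (by positivity) h9 hηpos.le
        _ = 2 ^ η * (N : ℝ) ^ η := Real.mul_rpow (by norm_num) (by positivity)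
        _ ≤ 2 * (N : ℝ) ^ η := by
            apply mul_le_mul_of_nonneg_right _ (by positivity)
            calc (2 : ℝ) ^ η ≤ 2 ^ (1 : ℝ) := Real.rpow_le_rpow_of_exponent_le (by norm_num) hη1
              _ = 2 := Real.rpow_one 2
    rw [div_le_iff₀ hNpos]
    have e1 : (N : ℝ) ^ (-η) * N = (N : ℝ) ^ (2 * θ) * (N : ℝ) ^ η := by
      rw [← Real.rpow_add hNpos]
      nth_rewrite 2 [← Real.rpow_one (N : ℝ)]
      rw [← Real.rpow_add hNpos]
      congr 1
      rw [hη]; ring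
    calc ((((Icc 1 N).filter (Exc0 θ)).card : ℕ) : ℝ)
        ≤ 2 * T * (T + 1) * (Nat.clog 2 (N + 1) : ℝ) := h3
      _ = 2 * ((T : ℝ) * (T + 1)) * (Nat.clog 2 (N + 1) : ℝ) := by ring
      _ ≤ 2 * (2 * (N : ℝ) ^ (2 * θ)) * ((1 + 2 / η) * (2 * (N : ℝ) ^ η)) := by
          apply mul_le_mul _ h8 (by positivity) (by positivity)
          linarith
      _ = 8 * (1 + 2 / η) * ((N : ℝ) ^ (2 * θ) * (N : ℝ) ^ η) := by ring
      _ = 8 * (1 + 2 / η) * (N : ℝ) ^ (-η) * N := by rw [← e1]; ring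
  · have := (tendsto_pow_neg hηpos).const_mul (8 * (1 + 2 / η))
    simpa using this

theorem exc_zero' {θ ε : ℝ} (h0 : 1 / 2 ≤ θ) (h1 : θ < 1) (hε : 0 < ε)
    (hε2 : ε ≤ (1 - θ) / 2) : Zero (Exc θ (2 * θ - 1 + ε)) := by
  classical
  set γ : ℝ := 2 * θ - 1 + ε with hγ
  have hγpos : 0 < γ := by rw [hγ]; linarith
  have hγθ : γ ≤ θ := by rw [hγ]; linarith
  have hγ1 : γ ≤ 1 := by linarith
  set δ : ℝ := ε / 4 with hδ
  have hδpos : 0 < δ := by positivity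
  have hδ1 : δ < 1 := by rw [hδ]; linarith
  set γ' : ℝ := (1 - δ) * γ with hγ'
  have hγ'pos : 0 < γ' := by
    rw [hγ']; exact mul_pos (by linarith) hγpos
  have hγ'le : γ' ≤ γ := by rw [hγ']; nlinarith
  have hγ'ge : γ - δ ≤ γ' := by rw [hγ']; nlinarith
  unfold Zero
  refine squeeze_zero' (g := fun N : ℕ => (N : ℝ) ^ (-δ) +
      (32 * (1 + 2 / δ)) * (N : ℝ) ^ (-(2 * δ)))
    (Eventually.of_forall fun N => by positivity) ?_ ?_
  · have hlarge : ∀ᶠ N : ℕ in atTop, (4 : ℝ) ≤ (N : ℝ) ^ γ' :=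
      ((tendsto_rpow_atTop hγ'pos).comp tendsto_natCast_atTop_atTop).eventually_ge_atTop 4
    filter_upwards [eventually_ge_atTop 1, hlarge] with N hN hlg
    have hN' : (1 : ℝ) ≤ N := by exact_mod_cast hN
    have hNpos : (0 : ℝ) < N := by linarith
    set T := ⌊(N : ℝ) ^ θ⌋₊ with hT
    set w := ⌊(N : ℝ) ^ γ' / 2⌋₊ with hw
    have hTle : (T : ℝ) ≤ (N : ℝ) ^ θ := Nat.floor_le (by positivity)
    have hwle : (w : ℝ) ≤ (N : ℝ) ^ γ' / 2 := Nat.floor_le (by positivity)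
    have hwge : (N : ℝ) ^ γ' / 4 ≤ w := by
      have := Nat.lt_floor_add_one ((N : ℝ) ^ γ' / 2)
      rw [← hw] at this
      linarith
    have hw1 : 1 ≤ w := by
      have : (1 : ℝ) ≤ w := by linarith
      exact_mod_cast this
    have hpθ : (N : ℝ) ^ γ' ≤ (N : ℝ) ^ θ :=
      Real.rpow_le_rpow_of_exponent_le hN' (by linarith)
    have hp1 : (N : ℝ) ^ γ' ≤ N := by
      calc (N : ℝ) ^ γ' ≤ (N : ℝ) ^ (1 : ℝ) := Real.rpow_le_rpow_of_exponent_le hN' (by linarith)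
        _ = N := Real.rpow_one _
    set M := ⌊(N : ℝ) ^ (1 - δ)⌋₊ with hM
    have hMle : (M : ℝ) ≤ (N : ℝ) ^ (1 - δ) := Nat.floor_le (by positivity)
    have hsub : (Icc 1 N).filter (Exc θ γ) ⊆ Icc 1 M ∪ Bad N T w := by
      intro n hn
      rw [mem_filter, mem_Icc] at hn
      obtain ⟨⟨hn1, hnN⟩, s, t, hs, hst, ht, h2t, hgap, hlt⟩ := hn
      rw [mem_union]
      by_cases hnM : n ≤ M
      · left; rw [mem_Icc]; exact ⟨hn1, hnM⟩
      · right
        unfold Bad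
        rw [mem_filter, mem_Icc]
        refine ⟨⟨hn1, hnN⟩, s, t, hs, hst, ?_, h2t, ?_, hlt⟩
        · apply Nat.le_floor
          refine ht.trans ?_
          exact Real.rpow_le_rpow (by positivity) (by exact_mod_cast hnN) (by linarith)
        · have h3 : (N : ℝ) ^ (1 - δ) ≤ n := by
            by_contra hc
            push Not at hc
            exact hnM (Nat.le_floor hc.le)
          have h4 : (N : ℝ) ^ γ' ≤ (n : ℝ) ^ γ := by
            rw [hγ', Real.rpow_mul hNpos.le]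
            exact Real.rpow_le_rpow (by positivity) h3 hγpos.le
          have h5 : (2 * w : ℝ) ≤ (t : ℝ) - s := by linarith
          have h6 : (2 * w + s : ℝ) ≤ t := by linarith
          have h7 : 2 * w + s ≤ t := by exact_mod_cast h6
          omega
    have h2 := bad_card (N := N) (T := T) (w := w) hw1
    have h2' : (w : ℝ) * ((Bad N T w).card : ℝ) ≤ 2 * T * (T + w) * (Nat.clog 2 (N + w) : ℝ) := by
      exact_mod_cast h2
    have h3 : ((((Icc 1 N).filter (Exc θ γ)).card : ℕ) : ℝ) ≤ (N : ℝ) ^ (1 - δ) +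
        ((Bad N T w).card : ℝ) := by
      have h4 := (card_le_card hsub).trans (card_union_le _ _)
      rw [Nat.card_Icc] at h4
      have h5 : ((Icc 1 N).filter (Exc θ γ)).card ≤ M + (Bad N T w).card := by omega
      have h6 : ((((Icc 1 N).filter (Exc θ γ)).card : ℕ) : ℝ) ≤ M + ((Bad N T w).card : ℝ) := by
        exact_mod_cast h5
      linarith
    have h8 : (Nat.clog 2 (N + w) : ℝ) ≤ (1 + 2 / δ) * (2 * (N : ℝ) ^ δ) := by
      refine (clog_le (m := N + w) (by omega) hδpos).trans ?_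
      apply mul_le_mul_of_nonneg_left _ (by positivity)
      have h9 : ((N + w : ℕ) : ℝ) ≤ 2 * N := by push_cast; linarith
      calc ((N + w : ℕ) : ℝ) ^ δ ≤ (2 * N : ℝ) ^ δ :=
            Real.rpow_le_rpow (by positivity) h9 hδpos.le
        _ = 2 ^ δ * (N : ℝ) ^ δ := Real.mul_rpow (by norm_num) (by positivity)
        _ ≤ 2 * (N : ℝ) ^ δ := by
            apply mul_le_mul_of_nonneg_right _ (by positivity)
            calc (2 : ℝ) ^ δ ≤ 2 ^ (1 : ℝ) :=
                  Real.rpow_le_rpow_of_exponent_le (by norm_num) hδ1.le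
              _ = 2 := Real.rpow_one 2
    have h9 : (w : ℝ) * ((Bad N T w).card : ℝ) ≤
        8 * (1 + 2 / δ) * ((N : ℝ) ^ θ * (N : ℝ) ^ θ * (N : ℝ) ^ δ) := by
      refine h2'.trans ?_
      have h10 : (2 : ℝ) * T * (T + w) ≤ 4 * ((N : ℝ) ^ θ * (N : ℝ) ^ θ) := by
        have a1 : (T : ℝ) + w ≤ 2 * (N : ℝ) ^ θ := by linarith
        have a2 : (0 : ℝ) ≤ T := by positivity
        have a3 : (0 : ℝ) ≤ (N : ℝ) ^ θ := by positivity
        have a4 : (0 : ℝ) ≤ (T : ℝ) + w := by positivity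
        calc (2 : ℝ) * T * (T + w) ≤ 2 * (N : ℝ) ^ θ * (2 * (N : ℝ) ^ θ) := by
              apply mul_le_mul _ a1 a4 (by positivity)
              linarith
          _ = 4 * ((N : ℝ) ^ θ * (N : ℝ) ^ θ) := by ring
      calc (2 : ℝ) * T * (T + w) * (Nat.clog 2 (N + w) : ℝ)
          ≤ 4 * ((N : ℝ) ^ θ * (N : ℝ) ^ θ) * ((1 + 2 / δ) * (2 * (N : ℝ) ^ δ)) :=
            mul_le_mul h10 h8 (by positivity) (by positivity)
        _ = 8 * (1 + 2 / δ) * ((N : ℝ) ^ θ * (N : ℝ) ^ θ * (N : ℝ) ^ δ) := by ring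
    have h10 : ((Bad N T w).card : ℝ) ≤ 32 * (1 + 2 / δ) *
        ((N : ℝ) ^ θ * (N : ℝ) ^ θ * (N : ℝ) ^ δ * (N : ℝ) ^ (-γ')) := by
      have a1 : (0 : ℝ) ≤ ((Bad N T w).card : ℝ) := by positivity
      have a2 : (N : ℝ) ^ γ' / 4 * ((Bad N T w).card : ℝ) ≤
          8 * (1 + 2 / δ) * ((N : ℝ) ^ θ * (N : ℝ) ^ θ * (N : ℝ) ^ δ) :=
        (mul_le_mul_of_nonneg_right hwge a1).trans h9
      have a3 : (N : ℝ) ^ γ' * (N : ℝ) ^ (-γ') = 1 := by
        rw [← Real.rpow_add hNpos, add_neg_cancel, Real.rpow_zero]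
      have a4 : (0 : ℝ) ≤ (N : ℝ) ^ (-γ') := by positivity
      calc ((Bad N T w).card : ℝ)
          = 4 * (((N : ℝ) ^ γ' / 4 * ((Bad N T w).card : ℝ)) * (N : ℝ) ^ (-γ')) := by
            have : ((Bad N T w).card : ℝ) = ((Bad N T w).card : ℝ) *
              ((N : ℝ) ^ γ' * (N : ℝ) ^ (-γ')) := by rw [a3, mul_one]
            rw [this]; rw [a3]; ring_nf
            rw [mul_assoc, a3, mul_one]
        _ ≤ 4 * ((8 * (1 + 2 / δ) * ((N : ℝ) ^ θ * (N : ℝ) ^ θ * (N : ℝ) ^ δ)) *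
              (N : ℝ) ^ (-γ')) := by
            apply mul_le_mul_of_nonneg_left _ (by norm_num)
            exact mul_le_mul_of_nonneg_right a2 a4
        _ = _ := by ring
    have e1 : (N : ℝ) ^ (1 - δ) = (N : ℝ) ^ (-δ) * N := by
      nth_rewrite 3 [← Real.rpow_one (N : ℝ)]
      rw [← Real.rpow_add hNpos]
      congr 1
      ring
    have e2 : (N : ℝ) ^ θ * (N : ℝ) ^ θ * (N : ℝ) ^ δ * (N : ℝ) ^ (-γ')
        ≤ (N : ℝ) ^ (-(2 * δ)) * N := by
      nth_rewrite 6 [← Real.rpow_one (N : ℝ)]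
      rw [← Real.rpow_add hNpos, ← Real.rpow_add hNpos, ← Real.rpow_add hNpos,
        ← Real.rpow_add hNpos]
      apply Real.rpow_le_rpow_of_exponent_le hN'
      rw [hγ] at hγ'ge
      rw [hδ] at hγ'ge ⊢
      linarith
    rw [div_le_iff₀ hNpos]
    calc ((((Icc 1 N).filter (Exc θ γ)).card : ℕ) : ℝ)
        ≤ (N : ℝ) ^ (1 - δ) + ((Bad N T w).card : ℝ) := h3
      _ ≤ (N : ℝ) ^ (-δ) * N + 32 * (1 + 2 / δ) * ((N : ℝ) ^ (-(2 * δ)) * N) := by
          rw [e1]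
          have a5 : (0 : ℝ) ≤ 32 * (1 + 2 / δ) := by positivity
          have a6 := mul_le_mul_of_nonneg_left e2 a5
          linarith
      _ = ((N : ℝ) ^ (-δ) + (32 * (1 + 2 / δ)) * (N : ℝ) ^ (-(2 * δ))) * N := by ring
  · have h2 := (tendsto_pow_neg (a := 2 * δ) (by linarith)).const_mul (32 * (1 + 2 / δ))
    have h3 := (tendsto_pow_neg hδpos).add h2
    simpa using h3

theorem exc_zero {θ ε : ℝ} (h1 : θ < 1) (hε : 0 < ε) : Zero (Exc θ (2 * θ - 1 + ε)) := by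
  by_cases h0 : θ < 1 / 2
  · refine zero_mono (Q := Exc0 (max θ 0)) ?_
      (exc0_zero (le_max_right _ _) (max_lt h0 (by norm_num)))
    rintro n hn ⟨s, t, hs, hst, ht, h2t, _, hlt⟩
    refine ⟨s, t, hs, hst, ht.trans ?_, h2t, hlt⟩
    exact Real.rpow_le_rpow_of_exponent_le (by exact_mod_cast hn) (le_max_left _ _)
  · push Not at h0
    refine zero_mono (Q := Exc θ (2 * θ - 1 + min ε ((1 - θ) / 2))) ?_
      (exc_zero' h0 h1 (lt_min hε (by linarith)) (min_le_right _ _))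
    rintro n hn ⟨s, t, hs, hst, ht, h2t, hgap, hlt⟩
    refine ⟨s, t, hs, hst, ht, h2t, le_trans ?_ hgap, hlt⟩
    apply Real.rpow_le_rpow_of_exponent_le (by exact_mod_cast hn)
    have := min_le_left ε ((1 - θ) / 2)
    linarith

end Pool.Sel63c848
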